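import Mathlib

set_option autoImplicit false

/-! A two dimensional domain as a lattice of finite rank over a polynomial ring in two variables. -/

namespace Pool.Agent.R847.HG

open MvPolynomial

theorem exists_basis {K A : Type} [Field K] [CommRing A] [IsDomain A] [Algebra K A] {σ : Type}
    [Finite σ] (x : σ → A) (y : Fin 2 → A) (hy : AlgebraicIndependent K y)
    (hx : ∀ l, ∃ q : Polynomial (MvPolynomial (Fin 2) K), q ≠ 0 ∧
      Polynomial.eval₂ (aeval y : MvPolynomial (Fin 2) K →ₐ[K] A).toRingHom (x l) q = 0) :
    ∃ (e : ℕ) (ω : Fin e → A) (m₀ : Fin e) (s : MvPolynomial (Fin 2) K)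
      (Nm : σ → Fin e → Fin e → MvPolynomial (Fin 2) K), s ≠ 0 ∧ ω m₀ = 1 ∧
      (∀ c : Fin e → MvPolynomial (Fin 2) K, ∑ m, aeval y (c m) * ω m = 0 → ∀ m, c m = 0) ∧
      ∀ l m, aeval y s * x l * ω m = ∑ m', aeval y (Nm l m m') * ω m' := by
  classical
  let T := MvPolynomial (Fin 2) K
  let φ : T →+* A := (aeval y : MvPolynomial (Fin 2) K →ₐ[K] A).toRingHom
  have hφ : Function.Injective φ := hy
  let _ : Algebra T A := φ.toAlgebra
  let L := FractionRing A
  have hTA : FaithfulSMul T A := (faithfulSMul_iff_algebraMap_injective T A).2 hφ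
  have hTL : FaithfulSMul T L := by
    rw [faithfulSMul_iff_algebraMap_injective, IsScalarTower.algebraMap_eq T A L]
    exact (IsFractionRing.injective A L).comp hφ
  let F := FractionRing T
  let _ : Algebra F L := FractionRing.liftAlgebra T L
  have : IsScalarTower T F L := FractionRing.isScalarTower_liftAlgebra T L
  have hAL : Function.Injective (algebraMap A L) := IsFractionRing.injective A L
  have hTLmap : ∀ c : T, algebraMap T L c = algebraMap A L (φ c) := fun c =>
    IsScalarTower.algebraMap_apply T A L c
  have hTFmap : ∀ c : T, algebraMap F L (algebraMap T F c) = algebraMap A L (φ c) := by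
    intro c
    rw [← IsScalarTower.algebraMap_apply T F L, hTLmap]
  let X : σ → L := fun l => algebraMap A L (x l)
  have hXalg : ∀ l, IsIntegral F (X l) := by
    intro l
    rw [← isAlgebraic_iff_isIntegral]
    obtain ⟨q, hq0, hq⟩ := hx l
    have h1 : IsAlgebraic T (X l) := by
      refine ⟨q, hq0, ?_⟩
      rw [Polynomial.aeval_def, IsScalarTower.algebraMap_eq T A L]
      have h2 := congrArg (algebraMap A L) hq
      rw [Polynomial.hom_eval₂, map_zero] at h2
      exact h2
    exact h1.extendScalars (IsFractionRing.injective T F)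
  let W : Submodule F L := Subalgebra.toSubmodule (Algebra.adjoin F (Set.range X))
  have hWfg : W.FG := fg_adjoin_of_finite (Set.finite_range X) (by
    rintro _ ⟨l, rfl⟩
    exact hXalg l)
  have hWfin : Module.Finite F W := Module.Finite.iff_fg.2 hWfg
  have hWspan : W = Submodule.span F (Submonoid.closure (Set.range X) : Set L) :=
    Algebra.adjoin_eq_span F (Set.range X)
  have h1ind : LinearIndepOn F id ({1} : Set L) := by
    rw [linearIndepOn_singleton_iff]
    exact one_ne_zero
  obtain ⟨b, hbt, h1b, htb, hb⟩ := exists_linearIndepOn_id_extension (K := F)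
    (s := {(1 : L)}) (t := (Submonoid.closure (Set.range X) : Set L)) h1ind (by
      rw [Set.singleton_subset_iff]
      exact Submonoid.one_mem _)
  have hbW : ∀ z ∈ b, z ∈ W := by
    intro z hz
    rw [hWspan]
    exact Submodule.subset_span (hbt hz)
  have hbfin : b.Finite := by
    let g : b → W := fun z => ⟨z.1, hbW z.1 z.2⟩
    have hg : LinearIndependent F g := by
      apply LinearIndependent.of_comp W.subtype
      exact hb
    have := hg.finite_of_isNoetherian
    exact Set.toFinite b
  have hWb : W ≤ Submodule.span F b := by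
    rw [hWspan]
    exact Submodule.span_le.2 htb
  have : Finite b := hbfin
  obtain ⟨e, ⟨ε⟩⟩ := Finite.exists_equiv_fin b
  have hlift : ∀ m : Fin e, ∃ a : A, algebraMap A L a = (ε.symm m : L) := by
    intro m
    have h1 : ((ε.symm m : b) : L) ∈ Submonoid.closure (Set.range X) := hbt (ε.symm m).2
    have h2 : Set.range X = (algebraMap A L : A →* L) '' Set.range x := by
      rw [← Set.range_comp]
      rfl
    rw [h2, ← MonoidHom.map_mclosure] at h1
    obtain ⟨a, -, ha⟩ := h1
    exact ⟨a, ha⟩
  choose ω hω using hlift
  let m₀ : Fin e := ε ⟨1, h1b rfl⟩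
  have hω₀ : ω m₀ = 1 := by
    apply hAL
    rw [hω, map_one]
    simp [m₀]
  -- expansions
  have hmem : ∀ l m, X l * algebraMap A L (ω m) ∈ Submodule.span F b := by
    intro l m
    apply hWb
    have h1 : X l ∈ Algebra.adjoin F (Set.range X) := Algebra.subset_adjoin ⟨l, rfl⟩
    have h2 : algebraMap A L (ω m) ∈ Algebra.adjoin F (Set.range X) := by
      rw [hω]
      exact hbW _ (ε.symm m).2
    exact Subalgebra.mul_mem _ h1 h2
  have hexp : ∀ w ∈ Submodule.span F b, ∃ c : Fin e → F, w = ∑ m, c m • algebraMap A L (ω m) := by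
    intro w hw
    have h1 : b = Set.range fun m : Fin e => algebraMap A L (ω m) := by
      ext z
      constructor
      · intro hz
        refine ⟨ε ⟨z, hz⟩, ?_⟩
        simp only [hω]
        simp
      · rintro ⟨m, rfl⟩
        simp only [hω]
        exact (ε.symm m).2
    rw [h1, Submodule.mem_span_range_iff_exists_fun] at hw
    obtain ⟨c, hc⟩ := hw
    exact ⟨c, hc.symm⟩
  choose n hn using fun q : σ × Fin e => hexp _ (hmem q.1 q.2)
  obtain ⟨s, hs⟩ := IsLocalization.exist_integer_multiples_of_finite (nonZeroDivisors T)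
    (fun q : (σ × Fin e) × Fin e => n q.1 q.2)
  choose Nm hNm using hs
  refine ⟨e, ω, m₀, (s : T), fun l m m' => Nm ((l, m), m'), nonZeroDivisors.coe_ne_zero s, hω₀,
    fun c hc => ?_, fun l m => ?_⟩
  · have h1 : ∑ m, algebraMap T F (c m) • algebraMap A L (ω m) = 0 := by
      have h2 := congrArg (algebraMap A L) hc
      rw [map_sum, map_zero] at h2
      rw [← h2]
      apply Finset.sum_congr rfl
      intro m _
      rw [Algebra.smul_def, hTFmap, map_mul]
      rfl
    have hli : LinearIndependent F fun m : Fin e => algebraMap A L (ω m) := by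
      have h3 : LinearIndependent F (fun z : b => (z : L)) := hb
      have h4 := h3.comp ε.symm ε.symm.injective
      have h5 : (fun m : Fin e => algebraMap A L (ω m)) = (fun z : b => (z : L)) ∘ ε.symm := by
        funext m
        exact hω m
      rw [h5]
      exact h4
    rw [Fintype.linearIndependent_iff] at hli
    intro m
    have h6 := hli _ h1 m
    exact (map_eq_zero_iff _ (IsFractionRing.injective T F)).1 h6
  · apply hAL
    rw [map_mul, map_mul, map_sum]
    have h1 : algebraMap A L (aeval y (s : T)) * algebraMap A L (x l) * algebraMap A L (ω m) =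
        algebraMap T F (s : T) • (X l * algebraMap A L (ω m)) := by
      rw [Algebra.smul_def, hTFmap, mul_assoc]
      rfl
    rw [h1, hn (l, m), Finset.smul_sum]
    apply Finset.sum_congr rfl
    intro m' _
    have h2 := hNm ((l, m), m')
    rw [smul_smul, map_mul]
    have h3 : algebraMap T F (s : T) * n (l, m) m' = algebraMap T F (Nm ((l, m), m')) := by
      rw [h2, Algebra.smul_def]
    rw [h3, Algebra.smul_def, hTFmap]
    rfl

end Pool.Agent.R847.HG
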