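import Pool.Agent.R847.HG.Loc

set_option autoImplicit false

/-! From local bounds for a binary form to a bound for the height of its zeros. -/

namespace Pool.Agent.R847.HG

open MvPolynomial Height AdmissibleAbsValues Function

variable {K : Type} [Field K]

lemma bd_component {na : Bool} {v : AbsoluteValue K ℝ} {R : MvPolynomial (Fin 2) K} {r : ℝ}
    (h : Bd na v R r) (m : ℕ) : Bd na v (homogeneousComponent m R) r := by
  classical
  cases na
  · change ∑ κ ∈ (homogeneousComponent m R).support, v ((homogeneousComponent m R).coeff κ) ≤ r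
    calc ∑ κ ∈ (homogeneousComponent m R).support, v ((homogeneousComponent m R).coeff κ)
        ≤ ∑ κ ∈ (homogeneousComponent m R).support, v (R.coeff κ) := by
          apply Finset.sum_le_sum
          intro κ _
          rw [coeff_homogeneousComponent]
          split_ifs
          · exact le_rfl
          · rw [v.map_zero]; exact v.nonneg _
      _ ≤ _ := (sum_le_of_subset _ _).trans h
  · refine ⟨h.1, fun κ => ?_⟩
    rw [coeff_homogeneousComponent]
    split_ifs
    · exact h.2 κ
    · rw [v.map_zero]; exact h.1

lemma eval_component [Infinite K] (R : MvPolynomial (Fin 2) K) (x y : K)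
    (h : ∀ t : K, eval ![t * x, t * y] R = 0) (m : ℕ) :
    eval ![x, y] (homogeneousComponent m R) = 0 := by
  classical
  -- the polynomial in t
  let P : Polynomial K := ∑ i ∈ Finset.range (R.totalDegree + 1),
    Polynomial.C (eval ![x, y] (homogeneousComponent i R)) * Polynomial.X ^ i
  have hP : ∀ t, P.eval t = 0 := by
    intro t
    have h1 : P.eval t = eval ![t * x, t * y] R := by
      conv_rhs => rw [← sum_homogeneousComponent R]
      rw [map_sum]
      simp only [P, Polynomial.eval_finsetSum, Polynomial.eval_mul, Polynomial.eval_C,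
        Polynomial.eval_pow, Polynomial.eval_X]
      apply Finset.sum_congr rfl
      intro i _
      have h2 : (![t * x, t * y] : Fin 2 → K) = fun j => t * (![x, y] : Fin 2 → K) j := by
        funext j
        fin_cases j <;> simp
      have h3 : eval (fun j => t * (![x, y] : Fin 2 → K) j) (homogeneousComponent i R) =
          t ^ i * eval ![x, y] (homogeneousComponent i R) := by
        have hh := homogeneousComponent_isHomogeneous i R
        rw [eval_eq, eval_eq, Finset.mul_sum]
        apply Finset.sum_congr rfl
        intro κ hκ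
        have hdeg : κ.degree = i := by
          have := hh (mem_support_iff.1 hκ)
          rw [Finsupp.degree_eq_weight_one]; exact this
        rw [Finset.prod_congr rfl fun j _ => mul_pow t _ (κ j), Finset.prod_mul_distrib,
          Finset.prod_pow_eq_pow_sum]
        have h4 : ∑ j ∈ κ.support, κ j = i := hdeg
        rw [h4]
        ring
      rw [h2, h3, mul_comm]
    rw [h1, h t]
  have hP0 : P = 0 := Polynomial.funext fun t => by rw [hP t, Polynomial.eval_zero]
  by_cases hm : m < R.totalDegree + 1
  · have h1 := congrArg (fun Q => Polynomial.coeff Q m) hP0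
    simp only [P, Polynomial.finsetSum_coeff, Polynomial.coeff_C_mul, Polynomial.coeff_X_pow,
      Polynomial.coeff_zero] at h1
    rw [Finset.sum_eq_single m] at h1
    · simpa using h1
    · intro i _ hi
      rw [if_neg (Ne.symm hi), mul_zero]
    · intro h2
      exact absurd (Finset.mem_range.2 hm) h2
  · rw [homogeneousComponent_eq_zero _ _ (by omega), map_zero]

lemma one_le_prod' {κ : Type} (s : Finset κ) (f : κ → ℝ) (h : ∀ i, 1 ≤ f i) : 1 ≤ ∏ i ∈ s, f i := by
  classical
  induction s using Finset.induction_on with
  | empty => simp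
  | insert a s ha ih =>
    rw [Finset.prod_insert ha]
    calc (1 : ℝ) = 1 * 1 := (one_mul 1).symm
      _ ≤ _ := mul_le_mul (h a) ih zero_le_one (le_trans zero_le_one (h a))

variable [AdmissibleAbsValues K]

theorem height_bound [Infinite K] (D : Set K) (hD : D.Finite) (M : ℕ) :
    ∃ C : ℝ, 1 ≤ C ∧ ∀ (R : MvPolynomial (Fin 2) K) (N : ℕ) (x y : K), R ≠ 0 → x ≠ 0 →
      (∀ t : K, eval ![t * x, t * y] R = 0) →
      (∀ (na : Bool) (v : AbsoluteValue K ℝ) (_ : na = true → IsNonarchimedean v) (Q : ℝ),
        1 ≤ Q → (na = false → (M : ℝ) ≤ Q) → (∀ a ∈ D, v a ≤ Q) → Bd na v R (Q ^ N)) →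
      mulHeight₁ (y / x) ≤ C ^ N := by
  classical
  let q : AbsoluteValue K ℝ → ℝ := fun v => ∏ a ∈ hD.toFinset, max 1 (v a)
  have hq1 : ∀ v, 1 ≤ q v := fun v => one_le_prod' _ _ fun a => le_max_left _ _
  have hqD : ∀ v, ∀ a ∈ D, v a ≤ q v := by
    intro v a ha
    have h1 : a ∈ hD.toFinset := hD.mem_toFinset.2 ha
    calc v a ≤ max 1 (v a) := le_max_right _ _
      _ = max 1 (v a) * 1 := (mul_one _).symm
      _ ≤ max 1 (v a) * ∏ a ∈ hD.toFinset.erase a, max 1 (v a) := by
          apply mul_le_mul_of_nonneg_left _ (le_trans zero_le_one (le_max_left _ _))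
          exact one_le_prod' _ _ fun a => le_max_left _ _
      _ = q v := Finset.mul_prod_erase _ (fun a => max 1 (v a)) h1
  let qa : AbsoluteValue K ℝ → ℝ := fun v => max 1 (M : ℝ) * q v
  have hqa1 : ∀ v, 1 ≤ qa v := fun v => by
    calc (1 : ℝ) = 1 * 1 := (one_mul 1).symm
      _ ≤ _ := mul_le_mul (le_max_left _ _) (hq1 v) zero_le_one
        (le_trans zero_le_one (le_max_left _ _))
  have hqaM : ∀ v, (M : ℝ) ≤ qa v := fun v => by
    calc (M : ℝ) = M * 1 := (mul_one _).symm
      _ ≤ _ := mul_le_mul (le_max_right _ _) (hq1 v) zero_le_one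
        (le_trans zero_le_one (le_max_left _ _))
  have hqaD : ∀ v, ∀ a ∈ D, v a ≤ qa v := fun v a ha => by
    calc v a ≤ q v := hqD v a ha
      _ = 1 * q v := (one_mul _).symm
      _ ≤ _ := mul_le_mul_of_nonneg_right (le_max_left _ _) (le_trans zero_le_one (hq1 v))
  have hfin : (fun v : nonarchAbsVal (K := K) => q v.val).HasFiniteMulSupport := by
    have h1 : (⋃ a ∈ hD.toFinset.filter (fun a => a ≠ 0),
        (fun v : nonarchAbsVal (K := K) => v.val a).mulSupport).Finite := by
      apply Set.Finite.biUnion (Finset.finite_toSet _)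
      intro a ha
      have ha' : a ≠ 0 := by
        have := (Finset.mem_filter.1 ha).2
        exact this
      exact AdmissibleAbsValues.hasFiniteMulSupport ha'
    apply h1.subset
    intro v hv
    rw [mem_mulSupport] at hv
    by_contra hcon
    apply hv
    apply Finset.prod_eq_one
    intro a ha
    by_cases ha0 : a = 0
    · rw [ha0, v.val.map_zero]
      exact max_eq_left zero_le_one
    · have h2 : v.val a = 1 := by
        by_contra h3
        apply hcon
        rw [Set.mem_iUnion₂]
        exact ⟨a, Finset.mem_filter.2 ⟨ha, ha0⟩, h3⟩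
      rw [h2, max_self]
  refine ⟨(archAbsVal.map qa).prod * ∏ᶠ v : nonarchAbsVal (K := K), q v.val, ?_, ?_⟩
  · exact one_le_mul_of_one_le_of_one_le (Multiset.one_le_prod_map fun v _ => hqa1 v)
      (one_le_finprod fun v => hq1 _)
  intro R N x y hR hx hroot hbd
  -- a nonzero homogeneous component
  obtain ⟨m, hm⟩ : ∃ m, homogeneousComponent m R ≠ 0 := by
    by_contra hcon
    push Not at hcon
    apply hR
    rw [← sum_homogeneousComponent R]
    exact Finset.sum_eq_zero fun i _ => hcon i
  set P := homogeneousComponent m R with hP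
  have hPhom : P.IsHomogeneous m := homogeneousComponent_isHomogeneous m R
  have hProot : eval ![x, y] P = 0 := eval_component R x y hroot m
  have hne : P.support.Nonempty := support_nonempty.2 hm
  obtain ⟨κ₀, hκ₀, hmax⟩ := Finset.exists_max_image P.support (fun κ => κ 1) hne
  set c := P.coeff κ₀ with hc
  have hc0 : c ≠ 0 := mem_support_iff.1 hκ₀
  have harch : ∀ v ∈ archAbsVal (K := K), max (v (y / x)) 1 ≤ qa v ^ N / v c := by
    intro v _
    exact root_bound false (fun h => absurd h (by decide)) P m hPhom hm x y hx hProot _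
      (bd_component (hbd false v (fun h => absurd h (by decide)) (qa v) (hqa1 v)
        (fun _ => hqaM v) (hqaD v)) m) κ₀ hκ₀ hmax
  have hnonarch : ∀ v : nonarchAbsVal (K := K), max (v.val (y / x)) 1 ≤ q v.val ^ N / v.val c := by
    intro v
    have hv : IsNonarchimedean v.val := AdmissibleAbsValues.isNonarchimedean _ v.2
    exact root_bound true (fun _ => hv) P m hPhom hm x y hx hProot _
      (bd_component (hbd true v.val (fun _ => hv) (q v.val) (hq1 _)
        (fun h => absurd h (by decide)) (hqD _)) m) κ₀ hκ₀ hmax
  have hcfin : (fun v : nonarchAbsVal (K := K) => v.val c).HasFiniteMulSupport :=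
    AdmissibleAbsValues.hasFiniteMulSupport hc0
  have hfinN : (fun v : nonarchAbsVal (K := K) => q v.val ^ N).HasFiniteMulSupport := by
    apply hfin.subset
    intro v hv
    rw [mem_mulSupport] at hv ⊢
    intro h1
    apply hv
    rw [h1, one_pow]
  have hfindiv : (fun v : nonarchAbsVal (K := K) => q v.val ^ N / v.val c).HasFiniteMulSupport := by
    apply (Set.Finite.union hfinN hcfin).subset
    intro v hv
    rw [mem_mulSupport] at hv
    by_contra hcon
    rw [Set.mem_union, not_or, mem_mulSupport, mem_mulSupport, not_not, not_not] at hcon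
    apply hv
    rw [hcon.1, hcon.2, div_one]
  have hfinx : (fun v : nonarchAbsVal (K := K) => max (v.val (y / x)) 1).HasFiniteMulSupport := by
    by_cases h0 : y / x = 0
    · rw [h0]
      simp only [map_zero]
      have : (fun _ : nonarchAbsVal (K := K) => max (0 : ℝ) 1) = fun _ => 1 := by
        funext v
        exact max_eq_right zero_le_one
      rw [this]
      simp [HasFiniteMulSupport]
    · apply Set.Finite.subset (AdmissibleAbsValues.hasFiniteMulSupport h0)
      intro v hv
      rw [mem_mulSupport] at hv ⊢
      intro h1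
      apply hv
      rw [h1, max_self]
  rw [mulHeight₁_eq]
  have h1 : (archAbsVal.map fun v => max (v (y / x)) 1).prod ≤
      (archAbsVal.map fun v => qa v ^ N / v c).prod := by
    apply Multiset.prod_map_le_prod_map₀
    · intro v _
      positivity
    · intro v hv
      exact harch v hv
  have h2 : ∏ᶠ v : nonarchAbsVal (K := K), max (v.val (y / x)) 1 ≤
      ∏ᶠ v : nonarchAbsVal (K := K), q v.val ^ N / v.val c := by
    apply finprod_le_finprod hfinx (fun v => by positivity) hfindiv
    intro v
    exact hnonarch v
  have h3 : (archAbsVal.map fun v : AbsoluteValue K ℝ => qa v ^ N / v c).prod =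
      (archAbsVal.map qa).prod ^ N / (archAbsVal.map fun v : AbsoluteValue K ℝ => v c).prod := by
    rw [Multiset.prod_map_div, Multiset.prod_map_pow]
  have h4 : ∏ᶠ v : nonarchAbsVal (K := K), q v.val ^ N / v.val c =
      (∏ᶠ v : nonarchAbsVal (K := K), q v.val) ^ N / ∏ᶠ v : nonarchAbsVal (K := K), v.val c := by
    rw [finprod_div_distrib hfinN hcfin, finprod_pow hfin]
  have hnn : 0 ≤ ∏ᶠ v : nonarchAbsVal (K := K), max (v.val (y / x)) 1 :=
    finprod_nonneg fun v => by positivity
  have hnn2 : 0 ≤ (archAbsVal.map fun v : AbsoluteValue K ℝ => qa v ^ N / v c).prod := by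
    apply Multiset.prod_map_nonneg
    intro v _
    have := hqa1 v
    positivity
  calc _ ≤ (archAbsVal.map fun v : AbsoluteValue K ℝ => qa v ^ N / v c).prod *
        ∏ᶠ v : nonarchAbsVal (K := K), q v.val ^ N / v.val c := mul_le_mul h1 h2 hnn hnn2
    _ = ((archAbsVal.map qa).prod * ∏ᶠ v : nonarchAbsVal (K := K), q v.val) ^ N /
        ((archAbsVal.map fun v : AbsoluteValue K ℝ => v c).prod *
          ∏ᶠ v : nonarchAbsVal (K := K), v.val c) := by
        rw [h3, h4, mul_pow, div_mul_div_comm]
    _ = _ := by
        rw [AdmissibleAbsValues.product_formula hc0, div_one]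

end Pool.Agent.R847.HG
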