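import Pool.Agent.R847.HG.Sys

set_option autoImplicit false

/-! Heights along the orbits of an endomorphism of projective space over a number field. -/

namespace Pool.Agent.R847.HG

open MvPolynomial Height AdmissibleAbsValues

lemma homComp_mul {σ R : Type} [CommRing R] {m : ℕ} {P : MvPolynomial σ R}
    (hP : P.IsHomogeneous m) (H : MvPolynomial σ R) (n : ℕ) :
    homogeneousComponent (n + m) (H * P) = homogeneousComponent n H * P := by
  classical
  conv_lhs => rw [← sum_homogeneousComponent H, Finset.sum_mul, map_sum]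
  have h1 : ∀ i ∈ Finset.range (H.totalDegree + 1),
      homogeneousComponent (n + m) (homogeneousComponent i H * P) =
        if i = n then homogeneousComponent n H * P else 0 := by
    intro i _
    have h2 : homogeneousComponent i H * P ∈ homogeneousSubmodule σ R (i + m) :=
      (homogeneousComponent_isHomogeneous i H).mul hP
    rw [homogeneousComponent_of_mem h2]
    by_cases h : i = n
    · simp [h]
    · rw [if_neg (by omega), if_neg h]
  rw [Finset.sum_congr rfl h1, Finset.sum_ite_eq']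
  split_ifs with h
  · rfl
  · rw [Finset.mem_range, not_lt] at h
    rw [homogeneousComponent_eq_zero n H (by omega), zero_mul]

variable {K : Type} [Field K]

lemma exists_cert {N d : ℕ} (f : Fin (N + 1) → MvPolynomial (Fin (N + 1)) K)
    (hf : ∀ i, (f i).IsHomogeneous d)
    (h0 : ∀ x : Fin (N + 1) → AlgebraicClosure K, (∀ i, aeval x (f i) = 0) → x = 0) :
    ∃ (M : ℕ) (q : Fin (N + 1) × Fin (N + 1) → MvPolynomial (Fin (N + 1)) K),
      (∀ a, (q a).IsHomogeneous M) ∧ ∀ k, ∑ j, q (k, j) * f j = X k ^ (M + d) := by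
  classical
  set I : Ideal (MvPolynomial (Fin (N + 1)) K) := Ideal.span (Set.range f) with hI
  have hrad : ∀ k, ∃ n : ℕ, (X k : MvPolynomial (Fin (N + 1)) K) ^ n ∈ I := by
    intro k
    have h1 : (X k : MvPolynomial (Fin (N + 1)) K) ∈
        vanishingIdeal K (zeroLocus (AlgebraicClosure K) I) := by
      intro w hw
      have h2 : w = 0 := h0 w fun i => hw _ (Ideal.subset_span ⟨i, rfl⟩)
      rw [h2, aeval_X]
      rfl
    rw [vanishingIdeal_zeroLocus_eq_radical] at h1
    exact h1
  choose n hn using hrad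
  set M := ∑ k, n k with hM
  have hMk : ∀ k, (X k : MvPolynomial (Fin (N + 1)) K) ^ (M + d) ∈ I := by
    intro k
    have h1 : n k ≤ M + d := (Finset.single_le_sum (f := n) (fun i _ => Nat.zero_le _)
      (Finset.mem_univ k)).trans (by omega)
    obtain ⟨m, hm⟩ := Nat.exists_eq_add_of_le h1
    rw [hm, pow_add]
    exact I.mul_mem_right _ (hn k)
  have hrep : ∀ k, ∃ H : Fin (N + 1) → MvPolynomial (Fin (N + 1)) K,
      ∑ o, H o * f o = X k ^ (M + d) := by
    intro k
    have h1 := hMk k
    rw [hI] at h1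
    obtain ⟨H, hH⟩ := (Ideal.mem_span_range_iff_exists_fun).1 h1
    exact ⟨H, hH⟩
  choose H hH using hrep
  refine ⟨M, fun p => homogeneousComponent M (H p.1 p.2), fun a =>
    homogeneousComponent_isHomogeneous _ _, fun k => ?_⟩
  have h1 := congrArg (homogeneousComponent (M + d)) (hH k)
  rw [map_sum] at h1
  simp only [homComp_mul (hf _)] at h1
  rw [homogeneousComponent_of_mem (m := M + d) (isHomogeneous_X_pow k (M + d)), if_pos rfl] at h1
  exact h1

/-- No common zero over the field itself. -/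
lemma no_zero {N : ℕ} (f : Fin (N + 1) → MvPolynomial (Fin (N + 1)) K)
    (h0 : ∀ x : Fin (N + 1) → AlgebraicClosure K, (∀ i, aeval x (f i) = 0) → x = 0)
    (x : Fin (N + 1) → K) (hx : ∀ i, aeval x (f i) = 0) : x = 0 := by
  have h1 := h0 (fun i => algebraMap K (AlgebraicClosure K) (x i)) fun i => by
    have h2 : aeval (fun i => algebraMap K (AlgebraicClosure K) (x i)) (f i) =
        algebraMap K (AlgebraicClosure K) (aeval x (f i)) := by
      have := comp_aeval_apply (Algebra.ofId K (AlgebraicClosure K)) (f := x) (f i)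
      exact this.symm
    rw [h2, hx i, map_zero]
  funext i
  have h2 := congrFun h1 i
  simpa using h2

lemma stepR_ne_zero {N : ℕ} (f : Fin (N + 1) → MvPolynomial (Fin (N + 1)) K)
    (h0 : ∀ x : Fin (N + 1) → AlgebraicClosure K, (∀ i, aeval x (f i) = 0) → x = 0)
    (x : Fin (N + 1) → K) (hx : x ≠ 0) (n : ℕ) : (stepR f)^[n] x ≠ 0 := by
  induction n with
  | zero => exact hx
  | succ n ih =>
    rw [Function.iterate_succ_apply']
    intro h
    exact ih (no_zero f h0 _ fun i => congrFun h i)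

variable [AdmissibleAbsValues K]

lemma exists_lower {N d : ℕ} (f : Fin (N + 1) → MvPolynomial (Fin (N + 1)) K)
    (hf : ∀ i, (f i).IsHomogeneous d)
    (h0 : ∀ x : Fin (N + 1) → AlgebraicClosure K, (∀ i, aeval x (f i) = 0) → x = 0) :
    ∃ C : ℝ, ∀ x : Fin (N + 1) → K, C + d * logHeight x ≤ logHeight (stepR f x) := by
  obtain ⟨M, q, hq, h⟩ := exists_cert f hf h0
  obtain ⟨C, hC⟩ := logHeight_eval_ge' (M := M) (N := d) hq
  refine ⟨C, fun x => ?_⟩
  have h1 := hC f (x := x) (fun k => by
    have h2 := congrArg (eval x) (h k)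
    rw [map_sum] at h2
    simp only [map_mul, map_pow, eval_X] at h2
    exact h2)
  have h2 : (fun j => eval x (f j)) = stepR f x := by
    funext j
    rw [stepR, ← coe_aeval_eq_eval]
    rfl
  rwa [h2] at h1

lemma ratio_le {N : ℕ} (x : Fin (N + 1) → K) (i j : Fin (N + 1)) :
    mulHeight₁ (x j / x i) ≤ mulHeight x := by
  rw [mulHeight₁_div_eq_mulHeight]
  have h1 : ![x j, x i] = x ∘ ![j, i] := by
    funext k
    fin_cases k <;> rfl
  rw [h1]
  exact mulHeight_comp_le _ _

lemma height_le_prod {N : ℕ} (x : Fin (N + 1) → K) (i : Fin (N + 1)) (hi : x i ≠ 0) :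
    mulHeight x ≤ ∏ j, mulHeight₁ (x j / x i) := by
  classical
  have h1 : mulHeight x = mulHeight (fun j => x j / x i) := by
    rw [← mulHeight_smul_eq_mulHeight x (inv_ne_zero hi)]
    congr 1
    funext j
    simp [div_eq_inv_mul]
  have h2 : (fun j => x j / x i) =
      (fun I : Fin (N + 1) → Fin 2 => ∏ a, (![x a / x i, 1] : Fin 2 → K) (I a)) ∘
        fun j a => if a = j then 0 else 1 := by
    funext j
    simp only [Function.comp_apply]
    rw [Finset.prod_eq_single j]
    · simp
    · intro a _ ha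
      rw [if_neg ha]
      simp
    · simp
  have h3 : ∏ j, mulHeight₁ (x j / x i) =
      mulHeight (fun I : Fin (N + 1) → Fin 2 => ∏ a, (![x a / x i, 1] : Fin 2 → K) (I a)) := by
    rw [mulHeight_fun_prod_eq (x := fun a => (![x a / x i, 1] : Fin 2 → K))]
    · apply Finset.prod_congr rfl
      intro j _
      exact mulHeight₁_eq_mulHeight _
    · intro a h
      have := congrFun h 1
      simp at this
  rw [h1, h2, h3]
  exact mulHeight_comp_le _ _

/-- A bounded orbit is preperiodic. -/
lemma preperiodic_of_bounded [Northcott (mulHeight₁ (K := K))] {N : ℕ}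
    (x : ℕ → Fin (N + 1) → K) (hx : ∀ n, x n ≠ 0) (B : ℝ) (hB : ∀ n, mulHeight (x n) ≤ B) :
    ∃ m n, m < n ∧ ∃ c : K, c ≠ 0 ∧ x n = c • x m := by
  classical
  have hfin : {z : K | mulHeight₁ z ≤ B}.Finite := Northcott.finite_le B
  have hnz : ∀ n, ∃ i, x n i ≠ 0 := fun n => Function.ne_iff.1 (hx n)
  choose i hi using hnz
  have : Finite {z : K | mulHeight₁ z ≤ B} := hfin
  let g : ℕ → Fin (N + 1) → {z : K | mulHeight₁ z ≤ B} := fun n j =>
    ⟨x n j / x n (i n), (ratio_le (x n) (i n) j).trans (hB n)⟩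
  obtain ⟨m, n, hmn, hg⟩ : ∃ m n, m < n ∧ g m = g n := by
    obtain ⟨a, b, hab, h⟩ := Finite.exists_ne_map_eq_of_infinite g
    rcases lt_or_gt_of_ne hab with h1 | h1
    · exact ⟨a, b, h1, h⟩
    · exact ⟨b, a, h1, h.symm⟩
  refine ⟨m, n, hmn, x n (i n) / x m (i m), div_ne_zero (hi n) (hi m), ?_⟩
  funext j
  have h1 := congrArg (fun z : {z : K | mulHeight₁ z ≤ B} => (z : K)) (congrFun hg j)
  simp only [g] at h1
  rw [Pi.smul_apply, smul_eq_mul]
  have h2 := hi n
  have h3 := hi m
  field_simp at h1 ⊢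
  linear_combination -h1

/-- Growth of the height along an orbit which is not preperiodic. -/
lemma growth [Northcott (mulHeight₁ (K := K))] {N d : ℕ} (hd : 2 ≤ d)
    (f : Fin (N + 1) → MvPolynomial (Fin (N + 1)) K) (hf : ∀ i, (f i).IsHomogeneous d)
    (h0 : ∀ x : Fin (N + 1) → AlgebraicClosure K, (∀ i, aeval x (f i) = 0) → x = 0)
    (a : Fin (N + 1) → K) (ha : a ≠ 0) :
    (∃ m n, m < n ∧ ∃ c : K, c ≠ 0 ∧ (stepR f)^[n] a = c • (stepR f)^[m] a) ∨
    ∃ (c : ℝ) (n₀ : ℕ), 0 < c ∧ ∀ n, n₀ ≤ n → c * d ^ n ≤ logHeight ((stepR f)^[n] a) := by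
  obtain ⟨C, hC⟩ := exists_lower f hf h0
  have hdR : (2 : ℝ) ≤ d := by exact_mod_cast hd
  set h : ℕ → ℝ := fun n => logHeight ((stepR f)^[n] a) with hh
  have hstep : ∀ n, C + d * h n ≤ h (n + 1) := by
    intro n
    simp only [hh]
    rw [Function.iterate_succ_apply']
    exact hC _
  by_cases hb : ∃ n, |C| < h n
  · right
    obtain ⟨n₀, hn₀⟩ := hb
    have hgrow : ∀ m, (h n₀ - |C|) * d ^ m ≤ h (n₀ + m) - |C| := by
      intro m
      induction m with
      | zero => simp
      | succ m ih =>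
        have h1 := hstep (n₀ + m)
        have h2 : -|C| ≤ C := neg_abs_le C
        have h3 : 0 ≤ |C| := abs_nonneg C
        have h4 : (h n₀ - |C|) * d ^ (m + 1) ≤ (h (n₀ + m) - |C|) * d := by
          rw [pow_succ, ← mul_assoc]
          exact mul_le_mul_of_nonneg_right ih (by linarith)
        rw [← Nat.add_assoc]
        nlinarith
    have hpos : 0 < h n₀ - |C| := by linarith
    refine ⟨(h n₀ - |C|) / d ^ n₀, n₀, by positivity, fun n hn => ?_⟩
    obtain ⟨m, rfl⟩ := Nat.exists_eq_add_of_le hn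
    have h1 := hgrow m
    have h2 : (h n₀ - |C|) / d ^ n₀ * d ^ (n₀ + m) = (h n₀ - |C|) * d ^ m := by
      rw [pow_add]
      have : (d : ℝ) ^ n₀ ≠ 0 := by positivity
      field_simp
    rw [h2]
    have h3 : 0 ≤ |C| := abs_nonneg C
    change _ ≤ h (n₀ + m)
    linarith
  · left
    push Not at hb
    apply preperiodic_of_bounded (fun n => (stepR f)^[n] a) (fun n => stepR_ne_zero f h0 a ha n)
      (Real.exp |C|)
    intro n
    have h1 := hb n
    simp only [hh, logHeight_eq_log_mulHeight] at h1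
    rwa [Real.log_le_iff_le_exp (mulHeight_pos _)] at h1

end Pool.Agent.R847.HG
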