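import Pool.Agent.R847.HG.Loc

set_option autoImplicit false

/-! Norms of elements of a two dimensional domain as polynomials in two variables, with bounds for
their coefficients which are uniform along the iterates of a polynomial map. -/

namespace Pool.Agent.R847.HG

open MvPolynomial

variable {K A : Type} [Field K] [CommRing A] [IsDomain A] [Algebra K A] {e : ℕ}

/-- The matrix `M` describes the multiplication by `b`. -/
def Rep (y : Fin 2 → A) (ω : Fin e → A) (b : A)
    (M : Matrix (Fin e) (Fin e) (MvPolynomial (Fin 2) K)) : Prop :=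
  ∀ m, b * ω m = ∑ m', aeval y (M m m') * ω m'

/-- Independence. -/
def Ind (K : Type) [Field K] [Algebra K A] (y : Fin 2 → A) (ω : Fin e → A) : Prop :=
  ∀ c : Fin e → MvPolynomial (Fin 2) K, ∑ m, aeval y (c m) * ω m = 0 → ∀ m, c m = 0

variable {y : Fin 2 → A} {ω : Fin e → A}

omit [IsDomain A] in
lemma Rep.unique (hind : Ind K y ω) {b : A} {M M' : Matrix (Fin e) (Fin e) (MvPolynomial (Fin 2) K)}
    (h : Rep y ω b M) (h' : Rep y ω b M') : M = M' := by
  ext1 m m'
  have h1 := hind (fun m' => M m m' - M' m m') (by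
    simp only [map_sub, sub_mul, Finset.sum_sub_distrib]
    rw [← h m, ← h' m, sub_self]) m'
  exact sub_eq_zero.1 h1

omit [IsDomain A] in
lemma Rep.add {b b' : A} {M M' : Matrix (Fin e) (Fin e) (MvPolynomial (Fin 2) K)}
    (h : Rep y ω b M) (h' : Rep y ω b' M') : Rep y ω (b + b') (M + M') := by
  intro m
  rw [add_mul, h m, h' m, ← Finset.sum_add_distrib]
  apply Finset.sum_congr rfl
  intro m' _
  rw [Matrix.add_apply, map_add, add_mul]

omit [IsDomain A] in
lemma Rep.mul {b b' : A} {M M' : Matrix (Fin e) (Fin e) (MvPolynomial (Fin 2) K)}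
    (h : Rep y ω b M) (h' : Rep y ω b' M') : Rep y ω (b * b') (M' * M) := by
  intro m
  rw [mul_assoc, h' m, Finset.mul_sum]
  have h1 : ∀ m', b * (aeval y (M' m m') * ω m') =
      ∑ m'', aeval y (M' m m' * M m' m'') * ω m'' := by
    intro m'
    rw [mul_left_comm, h m', Finset.mul_sum]
    apply Finset.sum_congr rfl
    intro m'' _
    rw [map_mul, mul_assoc]
  rw [Finset.sum_congr rfl fun m' _ => h1 m', Finset.sum_comm]
  apply Finset.sum_congr rfl
  intro m'' _
  rw [Matrix.mul_apply, map_sum, Finset.sum_mul]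

omit [IsDomain A] in
lemma Rep.algebraMap (a : K) :
    Rep y ω (algebraMap K A a) (Matrix.diagonal fun _ => (C a : MvPolynomial (Fin 2) K)) := by
  classical
  intro m
  rw [Finset.sum_eq_single m]
  · rw [Matrix.diagonal_apply_eq, aeval_C]
  · intro m' _ hm'
    rw [Matrix.diagonal_apply_ne _ (Ne.symm hm'), map_zero, zero_mul]
  · simp

/-- The subalgebra of the elements which are described by a matrix. -/
def repAlg (K : Type) [Field K] [Algebra K A] (y : Fin 2 → A) (ω : Fin e → A) : Subalgebra K A where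
  carrier := {b | ∃ M : Matrix (Fin e) (Fin e) (MvPolynomial (Fin 2) K), Rep y ω b M}
  mul_mem' := by
    rintro a b ⟨M, hM⟩ ⟨M', hM'⟩
    exact ⟨_, hM.mul hM'⟩
  add_mem' := by
    rintro a b ⟨M, hM⟩ ⟨M', hM'⟩
    exact ⟨_, hM.add hM'⟩
  algebraMap_mem' := fun a => ⟨_, Rep.algebraMap a⟩

/-- The matrix of an element. -/
noncomputable def mu (b : repAlg K y ω) : Matrix (Fin e) (Fin e) (MvPolynomial (Fin 2) K) :=
  b.2.choose

omit [IsDomain A] in
lemma mu_spec (b : repAlg K y ω) : Rep y ω (b : A) (mu b) := b.2.choose_spec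

omit [IsDomain A] in
lemma mu_mul (hind : Ind K y ω) (b b' : repAlg K y ω) : mu (b * b') = mu b' * mu b :=
  (mu_spec (b * b')).unique hind ((mu_spec b).mul (mu_spec b'))

omit [IsDomain A] in
lemma mu_add (hind : Ind K y ω) (b b' : repAlg K y ω) : mu (b + b') = mu b + mu b' :=
  (mu_spec (b + b')).unique hind ((mu_spec b).add (mu_spec b'))

omit [IsDomain A] in
lemma mu_algebraMap (hind : Ind K y ω) (a : K) :
    mu (algebraMap K (repAlg K y ω) a) = Matrix.diagonal fun _ => C a :=
  (mu_spec (algebraMap K (repAlg K y ω) a)).unique hind (Rep.algebraMap a)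

omit [IsDomain A] in
lemma mu_sum (hind : Ind K y ω) {κ : Type} (s : Finset κ) (f : κ → repAlg K y ω) :
    mu (∑ i ∈ s, f i) = ∑ i ∈ s, mu (f i) := by
  classical
  induction s using Finset.induction_on with
  | empty =>
    rw [Finset.sum_empty, Finset.sum_empty]
    have h1 := mu_add (K := K) hind (0 : repAlg K y ω) 0
    rw [add_zero] at h1
    exact left_eq_add.1 h1
  | insert a s ha ih =>
    rw [Finset.sum_insert ha, Finset.sum_insert ha, mu_add hind, ih]

/-- The system of bounds on the elements which are described by matrices. -/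
def repSys (hind : Ind K y ω) (na : Bool) (v : AbsoluteValue K ℝ)
    (hna : na = true → IsNonarchimedean v) (D : Set K)
    (M : ℕ) (Q : ℝ) (hQ1 : 1 ≤ Q) (hQM : na = false → (M : ℝ) ≤ Q) (hQD : ∀ a ∈ D, v a ≤ Q)
    (he : e ≤ M) : BSys K (repAlg K y ω) D M where
  B := fun b j => ∀ m m', Bd na v (mu b m m') (Q ^ j)
  mono := fun a i j hij h m m' => (h m m').mono (pow_le_pow_right₀ hQ1 hij)
  mul := fun a b i j ha hb m m' => by
    rw [mu_mul hind, Matrix.mul_apply]
    have h1 := Bd.sum hna (Finset.univ : Finset (Fin e)) (fun m'' => mu b m m'' * mu a m'' m')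
      (Q ^ (i + j)) (by positivity) (fun m'' _ => by
        rw [add_comm i j, pow_add]
        exact (hb m m'').mul hna (ha m'' m')) Q hQ1 (fun hf => by
        rw [Finset.card_univ, Fintype.card_fin]
        exact le_trans (by exact_mod_cast he) (hQM hf))
    refine h1.mono ?_
    rw [← pow_succ]
    exact pow_le_pow_right₀ hQ1 (by omega)
  sum := fun s f j hs h m m' => by
    rw [mu_sum hind, Matrix.sum_apply, pow_succ]
    exact Bd.sum hna s _ _ (by positivity) (fun i hi => h i hi m m') Q hQ1 fun hf =>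
      le_trans (by exact_mod_cast hs) (hQM hf)
  neg := fun a j h m m' => by
    have h1 : mu (-a) = - mu a := by
      have h2 := mu_add (K := K) hind a (-a)
      have h3 : mu (0 : repAlg K y ω) = 0 := by
        have h4 := mu_add (K := K) hind (0 : repAlg K y ω) 0
        rw [add_zero] at h4
        exact left_eq_add.1 h4
      rw [add_neg_cancel, h3] at h2
      exact (neg_eq_of_add_eq_zero_right h2.symm).symm
    rw [h1, Matrix.neg_apply]
    exact bd_neg (h m m')
  coef := fun a ha m m' => by
    rw [mu_algebraMap hind, pow_one, Matrix.diagonal_apply]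
    split_ifs
    · exact (bd_C na a).mono (hQD a ha)
    · rw [← C_0]
      refine (bd_C na 0).mono ?_
      rw [v.map_zero]
      linarith
  one := fun m m' => by
    rw [← map_one (algebraMap K (repAlg K y ω)), mu_algebraMap hind, Matrix.diagonal_apply, pow_zero]
    split_ifs
    · have := bd_C (v := v) (σ := Fin 2) na (1 : K)
      rwa [v.map_one] at this
    · rw [← C_0]
      refine (bd_C na 0).mono ?_
      rw [v.map_zero]
      exact zero_le_one

omit [IsDomain A] in
lemma aeval_scale {R : Type} [CommRing R] [Algebra K R] {σ : Type} (G : MvPolynomial σ K) (d : ℕ)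
    (hG : G.IsHomogeneous d) (c : R) (x : σ → R) :
    aeval (fun l => c * x l) G = c ^ d * aeval x G := by
  classical
  rw [aeval_def, aeval_def, eval₂_eq, eval₂_eq, Finset.mul_sum]
  apply Finset.sum_congr rfl
  intro κ hκ
  have hdeg : κ.degree = d := by
    have := hG (mem_support_iff.1 hκ)
    rw [Finsupp.degree_eq_weight_one]; exact this
  rw [Finset.prod_congr rfl fun i _ => mul_pow c (x i) (κ i), Finset.prod_mul_distrib,
    Finset.prod_pow_eq_pow_sum]
  have h1 : ∑ i ∈ κ.support, κ i = d := hdeg
  rw [h1]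
  ring

lemma stepR_scale {R : Type} [CommRing R] [Algebra K R] {σ : Type} (F : σ → MvPolynomial σ K)
    (d : ℕ) (hF : ∀ l, (F l).IsHomogeneous d) (c : R) (x : σ → R) (k : ℕ) :
    (stepR F)^[k] (fun l => c * x l) = fun l => c ^ d ^ k * (stepR F)^[k] x l := by
  induction k with
  | zero => simp
  | succ k ih =>
    rw [Function.iterate_succ_apply', ih, Function.iterate_succ_apply']
    funext l
    simp only [stepR]
    rw [aeval_scale (F l) d (hF l), ← pow_mul, ← pow_succ]

lemma stepR_map {R R' : Type} [CommRing R] [Algebra K R] [CommRing R'] [Algebra K R'] {σ : Type}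
    (F : σ → MvPolynomial σ K) (ψ : R →ₐ[K] R') (x : σ → R) (k : ℕ) :
    (stepR F)^[k] (fun l => ψ (x l)) = fun l => ψ ((stepR F)^[k] x l) := by
  induction k with
  | zero => rfl
  | succ k ih =>
    rw [Function.iterate_succ_apply', ih, Function.iterate_succ_apply']
    funext l
    simp only [stepR]
    rw [← comp_aeval_apply]

/-- The eliminating polynomials. -/
theorem exists_elim (hy : AlgebraicIndependent K y) (hind : Ind K y ω) (m₀ : Fin e)
    (hm₀ : ω m₀ = 1) {σ : Type} [Fintype σ] (x : σ → A) (s : MvPolynomial (Fin 2) K) (hs : s ≠ 0)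
    (Nm : σ → Fin e → Fin e → MvPolynomial (Fin 2) K)
    (hN : ∀ l m, aeval y s * x l * ω m = ∑ m', aeval y (Nm l m m') * ω m')
    (F : σ → MvPolynomial σ K) (d : ℕ) (hd : 2 ≤ d) (hF : ∀ l, (F l).IsHomogeneous d)
    (G : MvPolynomial σ K) (dg : ℕ) (hG : G.IsHomogeneous dg) :
    ∃ (D : Set K) (M q : ℕ), D.Finite ∧ ∀ k, aeval ((stepR F)^[k] x) G ≠ 0 →
      ∃ R : MvPolynomial (Fin 2) K, R ≠ 0 ∧
        (∀ ev : A →ₐ[K] K, ev (aeval ((stepR F)^[k] x) G) = 0 → eval (fun i => ev (y i)) R = 0) ∧
        ∀ (na : Bool) (v : AbsoluteValue K ℝ) (_ : na = true → IsNonarchimedean v) (Q : ℝ),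
          1 ≤ Q → (na = false → (M : ℝ) ≤ Q) → (∀ a ∈ D, v a ≤ Q) →
          Bd na v R (Q ^ (q * d ^ k)) := by
  classical
  let D : Set K := (⋃ l, (fun κ => (F l).coeff κ) '' ((F l).support : Set (σ →₀ ℕ))) ∪
    ((fun κ => G.coeff κ) '' (G.support : Set (σ →₀ ℕ))) ∪
    (⋃ l, ⋃ m, ⋃ m', (fun κ => (Nm l m m').coeff κ) '' ((Nm l m m').support : Set (Fin 2 →₀ ℕ)))
  have hDfin : D.Finite := by
    refine ((Set.finite_iUnion fun l => ((F l).support.finite_toSet).image _).union
      ((G.support.finite_toSet).image _)).union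
      (Set.finite_iUnion fun l => Set.finite_iUnion fun m => Set.finite_iUnion fun m' =>
        ((Nm l m m').support.finite_toSet).image _)
  let M : ℕ := e + e.factorial + G.support.card + ∑ l, (F l).support.card +
    ∑ l, ∑ m, ∑ m', (Nm l m m').support.card
  have hMe : e ≤ M := by simp only [M]; omega
  have hMe' : e.factorial ≤ M := by simp only [M]; omega
  have hMG : G.support.card ≤ M := by simp only [M]; omega
  have hMF : ∀ l, (F l).support.card ≤ M := by
    intro l
    have := Finset.single_le_sum (f := fun l => (F l).support.card) (fun _ _ => Nat.zero_le _)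
      (Finset.mem_univ l)
    simp only [M]
    omega
  have hMN : ∀ l m m', (Nm l m m').support.card ≤ M := by
    intro l m m'
    have h1 := Finset.single_le_sum (f := fun m' => (Nm l m m').support.card)
      (fun _ _ => Nat.zero_le _) (Finset.mem_univ m')
    have h2 := Finset.single_le_sum (f := fun m => ∑ m', (Nm l m m').support.card)
      (fun _ _ => Nat.zero_le _) (Finset.mem_univ m)
    have h3 := Finset.single_le_sum (f := fun l => ∑ m, ∑ m', (Nm l m m').support.card)
      (fun _ _ => Nat.zero_le _) (Finset.mem_univ l)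
    simp only [M]
    omega
  refine ⟨D, M, e * (dg * (10 + 2) + 4 + 2) + 1, hDfin, fun k hne => ?_⟩
  -- the scaled coordinates
  let u : σ → repAlg K y ω := fun l => ⟨aeval y s * x l, Matrix.of (Nm l), hN l⟩
  have hu : ∀ l, mu (u l) = Matrix.of (Nm l) := fun l =>
    (mu_spec (u l)).unique hind (hN l)
  let b : repAlg K y ω := aeval ((stepR F)^[k] u) G
  have hb : (b : A) = (aeval y s ^ d ^ k) ^ dg * aeval ((stepR F)^[k] x) G := by
    have h1 : (b : A) = aeval ((stepR F)^[k] fun l => aeval y s * x l) G := by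
      have h2 := stepR_map F (repAlg K y ω).val u k
      have h3 : (b : A) = (repAlg K y ω).val (aeval ((stepR F)^[k] u) G) := rfl
      rw [h3, comp_aeval_apply]
      have h4 : (fun i => (repAlg K y ω).val ((stepR F)^[k] u i)) =
          (stepR F)^[k] fun l => aeval y s * x l := h2.symm
      rw [h4]
    rw [h1, stepR_scale F d hF, aeval_scale G dg hG]
  have hbne : (b : A) ≠ 0 := by
    rw [hb]
    refine mul_ne_zero (pow_ne_zero _ (pow_ne_zero _ ?_)) hne
    intro h0
    exact hs (hy (h0.trans (map_zero _).symm))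
  refine ⟨(mu b).det, ?_, ?_, ?_⟩
  · intro hdet
    obtain ⟨c, hc, hc0⟩ := Matrix.exists_vecMul_eq_zero_iff.2 hdet
    apply hc
    funext m
    refine hind c ?_ m
    have h1 : (b : A) * ∑ m, aeval y (c m) * ω m = 0 := by
      rw [Finset.mul_sum]
      have h2 : ∀ m, (b : A) * (aeval y (c m) * ω m) =
          ∑ m', aeval y (c m * mu b m m') * ω m' := by
        intro m
        rw [mul_left_comm, mu_spec b m, Finset.mul_sum]
        apply Finset.sum_congr rfl
        intro m' _
        rw [map_mul, mul_assoc]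
      rw [Finset.sum_congr rfl fun m _ => h2 m, Finset.sum_comm]
      apply Finset.sum_eq_zero
      intro m' _
      rw [← Finset.sum_mul, ← map_sum]
      have h3 := congrFun hc0 m'
      simp only [Matrix.vecMul, dotProduct, Pi.zero_apply] at h3
      rw [h3, map_zero, zero_mul]
    exact (mul_eq_zero.1 h1).resolve_left hbne
  · intro ev hev
    have h1 : ev (b : A) = 0 := by
      rw [hb, map_mul, hev, mul_zero]
    have h2 : eval (fun i => ev (y i)) (mu b).det =
        ((eval (fun i => ev (y i))).mapMatrix (mu b)).det := RingHom.map_det _ _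
    rw [h2, ← Matrix.exists_mulVec_eq_zero_iff]
    refine ⟨fun m => ev (ω m), ?_, ?_⟩
    · intro h3
      have h4 := congrFun h3 m₀
      simp only [hm₀, map_one, Pi.zero_apply] at h4
      exact one_ne_zero h4
    · funext m
      simp only [Matrix.mulVec, dotProduct, RingHom.mapMatrix_apply, Matrix.map_apply, Pi.zero_apply]
      have h3 := congrArg ev (mu_spec b m)
      rw [map_mul, h1, zero_mul, map_sum] at h3
      rw [h3]
      apply Finset.sum_congr rfl
      intro m' _
      rw [map_mul]
      congr 1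
      rw [comp_aeval_apply, ← coe_aeval_eq_eval]
      rfl
  · intro na v hna Q hQ1 hQM hQD
    have h1 : ∀ l, (repSys hind na v hna D M Q hQ1 hQM hQD hMe).B (u l) 2 := by
      intro l m m'
      rw [hu l, Matrix.of_apply]
      have h2 : ∀ κ, v ((Nm l m m').coeff κ) ≤ Q := by
        intro κ
        by_cases hκ : κ ∈ (Nm l m m').support
        · apply hQD
          right
          rw [Set.mem_iUnion₂]
          refine ⟨l, m, ?_⟩
          rw [Set.mem_iUnion]
          exact ⟨m', κ, hκ, rfl⟩
        · rw [notMem_support_iff.1 hκ, v.map_zero]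
          linarith
      cases na
      · change ∑ κ ∈ (Nm l m m').support, v ((Nm l m m').coeff κ) ≤ Q ^ 2
        calc ∑ κ ∈ (Nm l m m').support, v ((Nm l m m').coeff κ) ≤
              ∑ _κ ∈ (Nm l m m').support, Q := Finset.sum_le_sum fun κ _ => h2 κ
          _ = (Nm l m m').support.card * Q := by rw [Finset.sum_const, nsmul_eq_mul]
          _ ≤ Q * Q := by
              apply mul_le_mul_of_nonneg_right _ (by linarith)
              exact le_trans (by exact_mod_cast hMN l m m') (hQM rfl)
          _ = Q ^ 2 := (sq Q).symm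
      · refine ⟨by positivity, fun κ => (h2 κ).trans ?_⟩
        calc Q = Q ^ 1 := (pow_one Q).symm
          _ ≤ Q ^ 2 := pow_le_pow_right₀ hQ1 (by norm_num)
    have h2 := (repSys hind na v hna D M Q hQ1 hQM hQD hMe).iterate F d hd hF
      (fun l κ hκ => by
        left; left
        rw [Set.mem_iUnion]
        exact ⟨l, κ, hκ, rfl⟩) hMF u 2 h1 k
    have h3 := (repSys hind na v hna D M Q hQ1 hQM hQD hMe).eval G dg hG
      (fun κ hκ => by
        left; right
        exact ⟨κ, hκ, rfl⟩) hMG _ _ h2
    have h4 := (polySys (σ := Fin 2) na v hna D M Q hQ1 hQM hQD).det (mu b) _ h3 hMe'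
    refine Bd.mono h4 (pow_le_pow_right₀ hQ1 ?_)
    have hdk : 1 ≤ d ^ k := Nat.one_le_pow _ _ (by omega)
    have h5 : (2 + 8) * d ^ k - 8 ≤ 10 * d ^ k := by omega
    have h6 : dg * ((2 + 8) * d ^ k - 8 + 2) + 4 + 2 ≤ (dg * (10 + 2) + 4 + 2) * d ^ k := by
      calc dg * ((2 + 8) * d ^ k - 8 + 2) + 4 + 2 ≤ dg * (10 * d ^ k + 2 * d ^ k) + 6 * d ^ k := by
            have : dg * ((2 + 8) * d ^ k - 8 + 2) ≤ dg * (10 * d ^ k + 2 * d ^ k) :=
              Nat.mul_le_mul_left _ (by omega)
            omega
        _ = _ := by ring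
    calc e * (dg * ((2 + 8) * d ^ k - 8 + 2) + 4 + 2) + 1
        ≤ e * ((dg * (10 + 2) + 4 + 2) * d ^ k) + 1 * d ^ k :=
          Nat.add_le_add (Nat.mul_le_mul_left _ h6) (by omega)
      _ = _ := by ring

end Pool.Agent.R847.HG
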