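import Pool.Agent.R847.HG.Alg
import Pool.Agent.R847.HG.Rep
import Pool.Agent.R847.HG.Glob
import Pool.Agent.R847.HG.Ht
import Pool.Agent.H936R2.Per

set_option autoImplicit false

/-! The height gap principle for curves. -/

namespace Pool.Agent.R847.HG

open MvPolynomial Height AdmissibleAbsValues

variable {K : Type} [Field K]

lemma alg_of_trdeg {A : Type} [CommRing A] [IsDomain A] [Algebra K A]
    (htr : Algebra.trdeg K A ≤ 2) (y : Fin 2 → A) (z : A) :
    ∃ q : Polynomial (MvPolynomial (Fin 2) K), q ≠ 0 ∧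
      Polynomial.eval₂ (aeval y : MvPolynomial (Fin 2) K →ₐ[K] A).toRingHom z q = 0 := by
  have hdep : ¬ AlgebraicIndependent K (Fin.cons z y : Fin 3 → A) := by
    intro h
    have h1 := h.cardinalMk_le_trdeg.trans htr
    rw [Cardinal.mk_fin] at h1
    exact absurd h1 (by norm_num)
  rw [algebraicIndependent_iff] at hdep
  push Not at hdep
  obtain ⟨P, hP, hP0⟩ := hdep
  refine ⟨finSuccEquiv K 2 P, fun h => hP0 ((map_eq_zero_iff _ (finSuccEquiv K 2).injective).1 h), ?_⟩
  have h1 : (Polynomial.eval₂RingHom (aeval y : MvPolynomial (Fin 2) K →ₐ[K] A).toRingHom z).comp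
      (finSuccEquiv K 2 : MvPolynomial (Fin 3) K →+* Polynomial (MvPolynomial (Fin 2) K)) =
      (aeval (Fin.cons z y : Fin 3 → A) : MvPolynomial (Fin 3) K →ₐ[K] A).toRingHom := by
    apply MvPolynomial.ringHom_ext
    · intro a
      simp [finSuccEquiv_apply]
    · intro i
      refine Fin.cases ?_ (fun j => ?_) i
      · simp [finSuccEquiv_X_zero]
      · simp [finSuccEquiv_X_succ]
  have h2 := congrArg (fun ψ : MvPolynomial (Fin 3) K →+* A => ψ P) h1
  simp only [RingHom.comp_apply, Polynomial.coe_eval₂RingHom] at h2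
  exact h2.trans hP

lemma exists_ev {σ : Type} (S : Set (MvPolynomial σ K)) (x : σ → K) (hx : ∀ g ∈ S, aeval x g = 0) :
    ∃ ev : (MvPolynomial σ K ⧸ Ideal.span S) →ₐ[K] K,
      ∀ l, ev (Ideal.Quotient.mk (Ideal.span S) (X l)) = x l := by
  have h1 : ∀ P ∈ Ideal.span S, (aeval x : MvPolynomial σ K →ₐ[K] K) P = 0 := by
    intro P hP
    have h2 : Ideal.span S ≤ RingHom.ker (aeval x : MvPolynomial σ K →ₐ[K] K) := by
      rw [Ideal.span_le]
      intro g hg
      exact hx g hg
    exact h2 hP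
  refine ⟨Ideal.Quotient.liftₐ (Ideal.span S) (aeval x) h1, fun l => ?_⟩
  have h2 : Ideal.Quotient.liftₐ (Ideal.span S) (aeval x) h1
      (Ideal.Quotient.mk (Ideal.span S) (X l)) = (aeval x : MvPolynomial σ K →ₐ[K] K) (X l) :=
    Ideal.Quotient.lift_mk _ _ _
  rw [h2, aeval_X]

/-- The bound for the ratio of two coordinates. -/
theorem pair_bound [AdmissibleAbsValues K] [Infinite K] {σ : Type} [Fintype σ]
    (S : Set (MvPolynomial σ K)) (hS : ∀ g ∈ S, ∃ e : ℕ, g.IsHomogeneous e)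
    [hprime : (Ideal.span S).IsPrime]
    (htr : Algebra.trdeg K (MvPolynomial σ K ⧸ Ideal.span S) ≤ 2)
    (F : σ → MvPolynomial σ K) (d : ℕ) (hd : 2 ≤ d) (hF : ∀ l, (F l).IsHomogeneous d)
    (G : MvPolynomial σ K) (dg : ℕ) (hG : G.IsHomogeneous dg) (i j : σ) :
    ∃ C : ℝ, 1 ≤ C ∧ ∀ (k : ℕ) (x : σ → K), (∀ g ∈ S, aeval x g = 0) → x i ≠ 0 →
      aeval ((stepR F)^[k] fun l => Ideal.Quotient.mk (Ideal.span S) (X l)) G ≠ 0 →
      aeval ((stepR F)^[k] x) G = 0 → mulHeight₁ (x j / x i) ≤ C ^ (d ^ k) := by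
  classical
  set A := MvPolynomial σ K ⧸ Ideal.span S with hA
  let xb : σ → A := fun l => Ideal.Quotient.mk (Ideal.span S) (X l)
  let y : Fin 2 → A := ![xb i, xb j]
  have hdk : ∀ k, 1 ≤ d ^ k := fun k => Nat.one_le_pow _ _ (by omega)
  -- scaling of the points
  have hsc : ∀ (x : σ → K), (∀ g ∈ S, aeval x g = 0) → ∀ t : K,
      ∀ g ∈ S, aeval (fun l => t * x l) g = 0 := by
    intro x hx t g hg
    obtain ⟨e, he⟩ := hS g hg
    rw [aeval_scale g e he, hx g hg, mul_zero]
  by_cases hy : AlgebraicIndependent K y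
  · obtain ⟨e, ω, m₀, s, Nm, hs, hm₀, hind, hN⟩ := exists_basis xb y hy fun l =>
      alg_of_trdeg htr y (xb l)
    obtain ⟨D, M, q, hD, hel⟩ := exists_elim (ω := ω) hy hind m₀ hm₀ xb s hs Nm hN F d hd hF G dg hG
    obtain ⟨C, hC1, hC⟩ := height_bound D hD M
    refine ⟨C ^ q, one_le_pow₀ hC1, fun k x hx hxi hne hzero => ?_⟩
    obtain ⟨R, hR0, hRev, hRbd⟩ := hel k hne
    have h1 := hC R (q * d ^ k) (x i) (x j) hR0 hxi (by
      intro t
      obtain ⟨ev, hev⟩ := exists_ev S (fun l => t * x l) (hsc x hx t)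
      have h2 : (fun a => ev (y a)) = ![t * x i, t * x j] := by
        funext a
        fin_cases a
        · exact hev i
        · exact hev j
      rw [← h2]
      apply hRev
      rw [comp_aeval_apply, ← stepR_map F ev xb k]
      have h3 : (fun l => ev (xb l)) = fun l => t * x l := funext hev
      rw [h3, stepR_scale F d hF, aeval_scale G dg hG, hzero, mul_zero]) hRbd
    rwa [← pow_mul]
  · rw [algebraicIndependent_iff] at hy
    push Not at hy
    obtain ⟨Q₀, hQ₀, hQ₀0⟩ := hy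
    let D : Set K := (fun κ => Q₀.coeff κ) '' (Q₀.support : Set (Fin 2 →₀ ℕ))
    have hD : D.Finite := (Q₀.support.finite_toSet).image _
    obtain ⟨C, hC1, hC⟩ := height_bound D hD Q₀.support.card
    refine ⟨C ^ 2, one_le_pow₀ hC1, fun k x hx hxi hne hzero => ?_⟩
    have h1 := hC Q₀ 2 (x i) (x j) hQ₀0 hxi (by
      intro t
      obtain ⟨ev, hev⟩ := exists_ev S (fun l => t * x l) (hsc x hx t)
      have h2 : (fun a => ev (y a)) = ![t * x i, t * x j] := by
        funext a
        fin_cases a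
        · exact hev i
        · exact hev j
      have h3 := congrArg ev hQ₀
      rw [comp_aeval_apply, h2, map_zero] at h3
      rw [← coe_aeval_eq_eval]
      exact h3) (by
      intro na v hna Q hQ1 hQM hQD
      have h2 : ∀ κ, v (Q₀.coeff κ) ≤ Q := by
        intro κ
        by_cases hκ : κ ∈ Q₀.support
        · exact hQD _ ⟨κ, hκ, rfl⟩
        · rw [notMem_support_iff.1 hκ, v.map_zero]
          linarith
      cases na
      · change ∑ κ ∈ Q₀.support, v (Q₀.coeff κ) ≤ Q ^ 2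
        calc ∑ κ ∈ Q₀.support, v (Q₀.coeff κ) ≤
              ∑ _κ ∈ Q₀.support, Q := Finset.sum_le_sum fun κ _ => h2 κ
          _ = Q₀.support.card * Q := by rw [Finset.sum_const, nsmul_eq_mul]
          _ ≤ Q * Q := by
              apply mul_le_mul_of_nonneg_right _ (by linarith)
              exact hQM rfl
          _ = Q ^ 2 := (sq Q).symm
      · refine ⟨by positivity, fun κ => (h2 κ).trans ?_⟩
        calc Q = Q ^ 1 := (pow_one Q).symm
          _ ≤ Q ^ 2 := pow_le_pow_right₀ hQ1 (by norm_num))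
    refine h1.trans ?_
    calc C ^ 2 = (C ^ 2) ^ 1 := (pow_one _).symm
      _ ≤ (C ^ 2) ^ (d ^ k) := pow_le_pow_right₀ (one_le_pow₀ hC1) (hdk k)

lemma progressions_of_upward (Z : Set ℕ) (k : ℕ) (hk : 0 < k) (h : ∀ t ∈ Z, t + k ∈ Z) :
    ∃ T : Finset (ℕ × ℕ), Z = {n : ℕ | ∃ q ∈ T, ∃ m : ℕ, n = q.1 * m + q.2} := by
  classical
  have hup : ∀ t ∈ Z, ∀ s, t + k * s ∈ Z := by
    intro t ht s
    induction s with
    | zero => simpa using ht
    | succ s ih =>
      have := h _ ih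
      rwa [Nat.mul_succ, ← Nat.add_assoc]
  have hex : ∀ r, ∃ s, (∃ t, r + k * t ∈ Z) → r + k * s ∈ Z := by
    intro r
    by_cases hr : ∃ t, r + k * t ∈ Z
    · obtain ⟨t, ht⟩ := hr
      exact ⟨t, fun _ => ht⟩
    · exact ⟨0, fun h => absurd h hr⟩
  choose s hs using hex
  set M := (Finset.range k).sup s with hM
  apply Pool.Agent.H936R2.exists_progressions Z (k * M) k hk
  intro r hinf t
  obtain ⟨t₀, ht₀⟩ := hinf.nonempty
  rw [Set.mem_ofPred_eq] at ht₀
  -- the class of r
  set r' := r % k with hr'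
  have hr'k : r' < k := Nat.mod_lt _ hk
  have hrr : r = r' + k * (r / k) := (Nat.mod_add_div r k).symm
  have h1 : r' + k * (M + r / k + t₀) ∈ Z := by
    have : k * M + r + k * t₀ = r' + k * (M + r / k + t₀) := by
      conv_lhs => rw [hrr]
      ring
    rwa [this] at ht₀
  have h2 := hs r' ⟨_, h1⟩
  have h3 : s r' ≤ M := Finset.le_sup (f := s) (Finset.mem_range.2 hr'k)
  obtain ⟨w, hw⟩ := Nat.exists_eq_add_of_le h3
  have h4 := hup _ h2 (w + r / k + t)
  have h5 : k * M + r + k * t = r' + k * s r' + k * (w + r / k + t) := by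
    conv_lhs => rw [hrr, hw]
    ring
  rwa [h5]

/-- The height gap principle for curves. -/
theorem curve_gap [AdmissibleAbsValues K] [Northcott (mulHeight₁ (K := K))] [Infinite K] {N d : ℕ}
    (hd : 2 ≤ d) (f : Fin (N + 1) → MvPolynomial (Fin (N + 1)) K)
    (hf : ∀ i, (f i).IsHomogeneous d)
    (h0 : ∀ x : Fin (N + 1) → AlgebraicClosure K, (∀ i, aeval x (f i) = 0) → x = 0)
    (S : Set (MvPolynomial (Fin (N + 1)) K)) (hS : ∀ g ∈ S, ∃ e : ℕ, g.IsHomogeneous e)
    (hprime : (Ideal.span S).IsPrime)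
    (htr : Algebra.trdeg K (MvPolynomial (Fin (N + 1)) K ⧸ Ideal.span S) ≤ 2)
    (a : Fin (N + 1) → K) (ha : a ≠ 0) :
    (∃ T : Finset (ℕ × ℕ), {n : ℕ | ∀ g ∈ S, aeval ((stepR f)^[n] a) g = 0} =
      {n : ℕ | ∃ q ∈ T, ∃ m : ℕ, n = q.1 * m + q.2}) ∨
    ∃ C : ℕ, ∀ m ∈ {n : ℕ | ∀ g ∈ S, aeval ((stepR f)^[n] a) g = 0},
      ∀ n ∈ {n : ℕ | ∀ g ∈ S, aeval ((stepR f)^[n] a) g = 0}, m < n → 2 * m ≤ n + C := by
  classical
  set Z : Set ℕ := {n : ℕ | ∀ g ∈ S, aeval ((stepR f)^[n] a) g = 0} with hZ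
  set xb : Fin (N + 1) → MvPolynomial (Fin (N + 1)) K ⧸ Ideal.span S :=
    fun l => Ideal.Quotient.mk (Ideal.span S) (X l) with hxb
  -- invariant case
  by_cases hA : ∃ k, 0 < k ∧ ∀ g ∈ S, aeval ((stepR f)^[k] xb) g = 0
  · left
    obtain ⟨k, hk, hA⟩ := hA
    apply progressions_of_upward Z k hk
    intro t ht g hg
    obtain ⟨ev, hev⟩ := exists_ev S ((stepR f)^[t] a) ht
    have h1 := congrArg ev (hA g hg)
    rw [comp_aeval_apply, ← stepR_map f ev xb k, map_zero] at h1
    have h2 : (fun l => ev (xb l)) = (stepR f)^[t] a := funext hev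
    rw [h2, ← Function.iterate_add_apply, Nat.add_comm k t] at h1
    exact h1
  rcases growth hd f hf h0 a ha with ⟨m, n, hmn, c, hc, hcx⟩ | ⟨c, n₀, hc, hgrow⟩
  · -- preperiodic case
    left
    have hper : ∀ t, ∃ c' : K, c' ≠ 0 ∧
        (stepR f)^[t + n] a = fun l => c' * (stepR f)^[t + m] a l := by
      intro t
      refine ⟨c ^ d ^ t, pow_ne_zero _ hc, ?_⟩
      rw [Function.iterate_add_apply, Function.iterate_add_apply, hcx]
      exact stepR_scale f d hf c _ t
    have hiff : ∀ t, t + n ∈ Z ↔ t + m ∈ Z := by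
      intro t
      obtain ⟨c', hc', h1⟩ := hper t
      simp only [hZ, Set.mem_ofPred_eq]
      rw [h1]
      constructor
      · intro h g hg
        obtain ⟨e, he⟩ := hS g hg
        have h2 := h g hg
        rw [aeval_scale g e he] at h2
        exact (mul_eq_zero.1 h2).resolve_left (pow_ne_zero _ hc')
      · intro h g hg
        obtain ⟨e, he⟩ := hS g hg
        rw [aeval_scale g e he, h g hg, mul_zero]
    set k := n - m with hk
    have hiff' : ∀ t, m ≤ t → (t + k ∈ Z ↔ t ∈ Z) := by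
      intro t ht
      have h1 := hiff (t - m)
      have h2 : t - m + n = t + k := by omega
      have h3 : t - m + m = t := by omega
      rwa [h2, h3] at h1
    have hiter : ∀ s t, m ≤ t → (t + k * s ∈ Z ↔ t ∈ Z) := by
      intro s
      induction s with
      | zero => intro t _; simp
      | succ s ih =>
        intro t ht
        rw [Nat.mul_succ, ← Nat.add_assoc, hiff' _ (by omega), ih t ht]
    apply Pool.Agent.H936R2.exists_progressions Z m k (by omega)
    intro r hinf t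
    obtain ⟨t₀, ht₀⟩ := hinf.nonempty
    rw [hiter t (m + r) (by omega)]
    exact (hiter t₀ (m + r) (by omega)).1 ht₀
  · -- growing case
    right
    push Not at hA
    -- finitely many generators
    have hfg : (Ideal.span S).FG := IsNoetherian.noetherian _
    obtain ⟨S₀, hS₀S, hS₀⟩ := (Submodule.fg_span_iff_fg_span_finset_subset S).1 hfg
    have hA' : ∀ k, 0 < k → ∃ g ∈ S₀, aeval ((stepR f)^[k] xb) g ≠ 0 := by
      intro k hk
      by_contra hcon
      push Not at hcon
      obtain ⟨g, hg, hgne⟩ := hA k hk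
      apply hgne
      have h1 : g ∈ Ideal.span (S₀ : Set (MvPolynomial (Fin (N + 1)) K)) := by
        have : g ∈ Submodule.span (MvPolynomial (Fin (N + 1)) K) S := Submodule.subset_span hg
        rw [hS₀] at this
        exact this
      have h2 : Ideal.span (S₀ : Set (MvPolynomial (Fin (N + 1)) K)) ≤
          RingHom.ker (aeval ((stepR f)^[k] xb) : MvPolynomial (Fin (N + 1)) K →ₐ[K] _) := by
        rw [Ideal.span_le]
        intro g hg
        exact hcon g hg
      exact h2 h1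
    -- constants
    have hconst : ∀ q : (Fin (N + 1) × Fin (N + 1)) × S₀, ∃ C : ℝ, 1 ≤ C ∧
        ∀ (k : ℕ) (x : Fin (N + 1) → K), (∀ g ∈ S, aeval x g = 0) → x q.1.1 ≠ 0 →
          aeval ((stepR f)^[k] xb) (q.2 : MvPolynomial (Fin (N + 1)) K) ≠ 0 →
          aeval ((stepR f)^[k] x) (q.2 : MvPolynomial (Fin (N + 1)) K) = 0 →
          mulHeight₁ (x q.1.2 / x q.1.1) ≤ C ^ (d ^ k) := by
      rintro ⟨⟨i, j⟩, ⟨g, hg⟩⟩
      obtain ⟨e, he⟩ := hS g (hS₀S hg)
      exact pair_bound S hS htr f d hd hf g e he i j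
    choose Cq hCq1 hCq using hconst
    set C : ℝ := ∏ q, Cq q with hC
    have hCq0 : ∀ q, 0 ≤ Cq q := fun q => zero_le_one.trans (hCq1 q)
    have hC1 : 1 ≤ C := one_le_prod' _ _ hCq1
    have hCle : ∀ q, Cq q ≤ C := by
      intro q
      calc Cq q = Cq q * 1 := (mul_one _).symm
        _ ≤ Cq q * ∏ q' ∈ Finset.univ.erase q, Cq q' :=
          mul_le_mul_of_nonneg_left (one_le_prod' _ _ hCq1) (hCq0 q)
        _ = C := Finset.mul_prod_erase _ _ (Finset.mem_univ q)
    have hlogC : 0 ≤ Real.log C := Real.log_nonneg hC1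
    have hheight : ∀ m ∈ Z, ∀ n ∈ Z, m < n →
        logHeight ((stepR f)^[m] a) ≤ (N + 1) * Real.log C * d ^ (n - m) := by
      intro m hm n hn hmn
      obtain ⟨g, hg, hgne⟩ := hA' (n - m) (by omega)
      obtain ⟨i, hi⟩ := Function.ne_iff.1 (stepR_ne_zero f h0 a ha m)
      rw [Pi.zero_apply] at hi
      have h1 : ∀ j, mulHeight₁ ((stepR f)^[m] a j / (stepR f)^[m] a i) ≤ C ^ (d ^ (n - m)) := by
        intro j
        refine (hCq ((i, j), ⟨g, hg⟩) (n - m) ((stepR f)^[m] a) hm hi hgne ?_).trans ?_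
        · rw [← Function.iterate_add_apply, Nat.sub_add_cancel hmn.le]
          exact hn g (hS₀S hg)
        · exact pow_le_pow_left₀ (hCq0 _) (hCle _) _
      have h2 : mulHeight ((stepR f)^[m] a) ≤ (C ^ (d ^ (n - m))) ^ (N + 1) := by
        refine (height_le_prod _ i hi).trans ?_
        calc ∏ j, mulHeight₁ ((stepR f)^[m] a j / (stepR f)^[m] a i)
            ≤ ∏ _j : Fin (N + 1), C ^ (d ^ (n - m)) :=
              Finset.prod_le_prod (fun j _ => mulHeight₁_nonneg _) fun j _ => h1 j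
          _ = _ := by rw [Finset.prod_const, Finset.card_univ, Fintype.card_fin]
      rw [logHeight_eq_log_mulHeight]
      refine (Real.log_le_log (mulHeight_pos _) h2).trans ?_
      rw [Real.log_pow, Real.log_pow]
      push_cast
      apply le_of_eq
      ring
    -- the final estimate
    obtain ⟨B, hB⟩ : ∃ B : ℕ, (N + 1) * Real.log C / c < 2 ^ B := by
      obtain ⟨B, hB⟩ := pow_unbounded_of_one_lt ((N + 1) * Real.log C / c) (one_lt_two)
      exact ⟨B, hB⟩
    refine ⟨B + 2 * n₀, fun m hm n hn hmn => ?_⟩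
    by_cases hmn₀ : m < n₀
    · omega
    push Not at hmn₀
    by_contra hcon
    push Not at hcon
    have h1 := hheight m hm n hn hmn
    have h2 := hgrow m hmn₀
    have h3 : m = (n - m) + (B + (m - (n - m) - B)) := by omega
    have hdR : (2 : ℝ) ≤ d := by exact_mod_cast hd
    have h4 : c * (d : ℝ) ^ m ≤ (N + 1) * Real.log C * d ^ (n - m) := h2.trans h1
    have h5 : (d : ℝ) ^ m = d ^ (n - m) * d ^ (B + (m - (n - m) - B)) := by
      rw [← pow_add, ← h3]
    rw [h5] at h4
    have h6 : 0 < (d : ℝ) ^ (n - m) := by positivity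
    have h7 : c * (d : ℝ) ^ (B + (m - (n - m) - B)) ≤ (N + 1) * Real.log C := by
      have : (c * (d : ℝ) ^ (B + (m - (n - m) - B))) * d ^ (n - m) ≤
          ((N + 1) * Real.log C) * d ^ (n - m) := by
        calc _ = c * (d ^ (n - m) * (d : ℝ) ^ (B + (m - (n - m) - B))) := by ring
          _ ≤ _ := h4
      exact le_of_mul_le_mul_right this h6
    have h8 : (2 : ℝ) ^ B ≤ (d : ℝ) ^ (B + (m - (n - m) - B)) := by
      calc (2 : ℝ) ^ B ≤ (d : ℝ) ^ B := pow_le_pow_left₀ (by norm_num) hdR _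
        _ ≤ _ := pow_le_pow_right₀ (by linarith) (by omega)
    rw [div_lt_iff₀ hc] at hB
    nlinarith

end Pool.Agent.R847.HG
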