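import Pool.Agent.R847.HG.Sys

set_option autoImplicit false

/-! Local bounds for the coefficients of polynomials. -/

namespace Pool.Agent.R847.HG

open MvPolynomial

variable {K : Type} [Field K]

/-- A bound for the coefficients of a polynomial with respect to an absolute value: for the sum of the
absolute values, or (flag `true`, for nonarchimedean absolute values) for the maximum. -/
def Bd {σ : Type} (na : Bool) (v : AbsoluteValue K ℝ) (P : MvPolynomial σ K) (r : ℝ) : Prop :=
  if na then 0 ≤ r ∧ ∀ κ, v (P.coeff κ) ≤ r else ∑ κ ∈ P.support, v (P.coeff κ) ≤ r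

variable {σ : Type} {v : AbsoluteValue K ℝ}

lemma Bd.mono {na : Bool} {P : MvPolynomial σ K} {r r' : ℝ} (h : Bd na v P r) (hr : r ≤ r') :
    Bd na v P r' := by
  cases na
  · exact le_trans h hr
  · exact ⟨h.1.trans hr, fun κ => (h.2 κ).trans hr⟩

lemma sum_le_of_subset (P : MvPolynomial σ K) (s : Finset (σ →₀ ℕ)) :
    ∑ κ ∈ s, v (P.coeff κ) ≤ ∑ κ ∈ P.support, v (P.coeff κ) := by
  classical
  calc ∑ κ ∈ s, v (P.coeff κ) = ∑ κ ∈ s ∩ P.support, v (P.coeff κ) := by
        symm
        apply Finset.sum_subset Finset.inter_subset_left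
        intro κ hκ hκ'
        have : κ ∉ P.support := fun h => hκ' (Finset.mem_inter.2 ⟨hκ, h⟩)
        rw [notMem_support_iff.1 this, v.map_zero]
    _ ≤ _ := Finset.sum_le_sum_of_subset_of_nonneg Finset.inter_subset_right
        fun _ _ _ => v.nonneg _

lemma Bd.nonneg {na : Bool} {P : MvPolynomial σ K} {r : ℝ} (h : Bd na v P r) : 0 ≤ r := by
  cases na
  · exact (Finset.sum_nonneg fun _ _ => v.nonneg _).trans h
  · exact h.1

lemma Bd.coeff {na : Bool} {P : MvPolynomial σ K} {r : ℝ} (h : Bd na v P r) (κ : σ →₀ ℕ) :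
    v (P.coeff κ) ≤ r := by
  cases na
  · have h1 := sum_le_of_subset (v := v) P {κ}
    rw [Finset.sum_singleton] at h1
    exact h1.trans h
  · exact h.2 κ

lemma bd_C (na : Bool) (a : K) : Bd na v (C a : MvPolynomial σ K) (v a) := by
  classical
  cases na
  · refine (sum_le_of_subset (v := v) (C a : MvPolynomial σ K) (C a : MvPolynomial σ K).support).trans ?_
    by_cases ha : a = 0
    · simp [ha]
    · have h1 : (C a : MvPolynomial σ K).support = {0} := by
        rw [← monomial_zero', support_monomial, if_neg ha]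
      rw [h1, Finset.sum_singleton, coeff_zero_C]
  · refine ⟨v.nonneg _, fun κ => ?_⟩
    rw [coeff_C]
    split_ifs
    · exact le_rfl
    · rw [v.map_zero]; exact v.nonneg _

lemma bd_neg {na : Bool} {P : MvPolynomial σ K} {r : ℝ} (h : Bd na v P r) : Bd na v (-P) r := by
  cases na
  · change ∑ κ ∈ (-P).support, v ((-P).coeff κ) ≤ r
    rw [support_neg]
    simp only [coeff_neg, v.map_neg]
    exact h
  · refine ⟨h.1, fun κ => ?_⟩
    rw [coeff_neg, v.map_neg]
    exact h.2 κ

lemma na_sum_le (hv : IsNonarchimedean v) {κ : Type} (s : Finset κ) (f : κ → K) (r : ℝ) (hr : 0 ≤ r)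
    (h : ∀ i ∈ s, v (f i) ≤ r) : v (∑ i ∈ s, f i) ≤ r := by
  classical
  induction s using Finset.induction_on with
  | empty => simpa using hr
  | insert a s ha ih =>
    rw [Finset.sum_insert ha]
    exact (hv _ _).trans (max_le (h a (Finset.mem_insert_self _ _))
      (ih fun i hi => h i (Finset.mem_insert_of_mem hi)))

lemma ell_add (P Q : MvPolynomial σ K) :
    ∑ κ ∈ (P + Q).support, v ((P + Q).coeff κ) ≤
      ∑ κ ∈ P.support, v (P.coeff κ) + ∑ κ ∈ Q.support, v (Q.coeff κ) := by
  calc ∑ κ ∈ (P + Q).support, v ((P + Q).coeff κ) ≤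
        ∑ κ ∈ (P + Q).support, (v (P.coeff κ) + v (Q.coeff κ)) := by
        apply Finset.sum_le_sum
        intro κ _
        rw [coeff_add]
        exact v.add_le _ _
    _ = ∑ κ ∈ (P + Q).support, v (P.coeff κ) + ∑ κ ∈ (P + Q).support, v (Q.coeff κ) :=
        Finset.sum_add_distrib
    _ ≤ _ := add_le_add (sum_le_of_subset _ _) (sum_le_of_subset _ _)

lemma ell_monomial_mul (μ : σ →₀ ℕ) (c : K) (Q : MvPolynomial σ K) :
    ∑ κ ∈ (monomial μ c * Q).support, v ((monomial μ c * Q).coeff κ) ≤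
      v c * ∑ κ ∈ Q.support, v (Q.coeff κ) := by
  classical
  have hsub : (monomial μ c * Q).support ⊆ Q.support.image (fun κ => μ + κ) := by
    intro κ hκ
    rw [mem_support_iff, coeff_monomial_mul'] at hκ
    split_ifs at hκ with h
    · rw [Finset.mem_image]
      refine ⟨κ - μ, ?_, add_tsub_cancel_of_le h⟩
      rw [mem_support_iff]
      intro h0
      apply hκ
      rw [h0, mul_zero]
    · exact absurd rfl hκ
  calc ∑ κ ∈ (monomial μ c * Q).support, v ((monomial μ c * Q).coeff κ)
      ≤ ∑ κ ∈ Q.support.image (fun κ => μ + κ), v ((monomial μ c * Q).coeff κ) :=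
        Finset.sum_le_sum_of_subset_of_nonneg hsub fun _ _ _ => v.nonneg _
    _ = ∑ κ ∈ Q.support, v ((monomial μ c * Q).coeff (μ + κ)) := by
        apply Finset.sum_image
        intro a _ b _ hab
        exact add_left_cancel hab
    _ = ∑ κ ∈ Q.support, v c * v (Q.coeff κ) := by
        apply Finset.sum_congr rfl
        intro κ _
        rw [coeff_monomial_mul, v.map_mul]
    _ = _ := (Finset.mul_sum _ _ _).symm

lemma ell_sum {κ : Type} (s : Finset κ) (f : κ → MvPolynomial σ K) :
    ∑ μ ∈ (∑ i ∈ s, f i).support, v ((∑ i ∈ s, f i).coeff μ) ≤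
      ∑ i ∈ s, ∑ μ ∈ (f i).support, v ((f i).coeff μ) := by
  classical
  induction s using Finset.induction_on with
  | empty => simp
  | insert a s ha ih =>
    rw [Finset.sum_insert ha, Finset.sum_insert ha]
    exact (ell_add _ _).trans (add_le_add le_rfl ih)

lemma ell_mul (P Q : MvPolynomial σ K) :
    ∑ κ ∈ (P * Q).support, v ((P * Q).coeff κ) ≤
      (∑ κ ∈ P.support, v (P.coeff κ)) * ∑ κ ∈ Q.support, v (Q.coeff κ) := by
  classical
  have h1 : P * Q = ∑ κ ∈ P.support, monomial κ (P.coeff κ) * Q := by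
    rw [← Finset.sum_mul, ← P.as_sum]
  calc ∑ κ ∈ (P * Q).support, v ((P * Q).coeff κ)
      = ∑ μ ∈ (∑ κ ∈ P.support, monomial κ (P.coeff κ) * Q).support,
          v ((∑ κ ∈ P.support, monomial κ (P.coeff κ) * Q).coeff μ) := by rw [← h1]
    _ ≤ ∑ κ ∈ P.support, ∑ μ ∈ (monomial κ (P.coeff κ) * Q).support,
          v ((monomial κ (P.coeff κ) * Q).coeff μ) := ell_sum _ _
    _ ≤ ∑ κ ∈ P.support, v (P.coeff κ) * ∑ μ ∈ Q.support, v (Q.coeff μ) :=
        Finset.sum_le_sum fun κ _ => ell_monomial_mul _ _ _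
    _ = _ := (Finset.sum_mul _ _ _).symm

lemma Bd.mul {na : Bool} (hna : na = true → IsNonarchimedean v) {P Q : MvPolynomial σ K} {r r' : ℝ}
    (h : Bd na v P r) (h' : Bd na v Q r') : Bd na v (P * Q) (r * r') := by
  classical
  cases na
  · refine (ell_mul (v := v) P Q).trans ?_
    exact mul_le_mul h h' (Finset.sum_nonneg fun _ _ => v.nonneg _)
      ((Finset.sum_nonneg fun _ _ => v.nonneg _).trans h)
  · refine ⟨mul_nonneg h.1 h'.1, fun κ => ?_⟩
    rw [coeff_mul]
    apply na_sum_le (hna rfl) _ _ _ (mul_nonneg h.1 h'.1)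
    intro q _
    rw [v.map_mul]
    exact mul_le_mul (h.2 _) (h'.2 _) (v.nonneg _) h.1

lemma Bd.sum {na : Bool} (hna : na = true → IsNonarchimedean v) {κ : Type} (s : Finset κ)
    (f : κ → MvPolynomial σ K) (r : ℝ) (hr : 0 ≤ r) (h : ∀ i ∈ s, Bd na v (f i) r) (Q : ℝ)
    (hQ1 : 1 ≤ Q) (hQ : na = false → (s.card : ℝ) ≤ Q) : Bd na v (∑ i ∈ s, f i) (r * Q) := by
  cases na
  · refine (ell_sum (v := v) s f).trans ?_
    calc ∑ i ∈ s, ∑ μ ∈ (f i).support, v ((f i).coeff μ) ≤ ∑ _i ∈ s, r := Finset.sum_le_sum h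
      _ = s.card * r := by rw [Finset.sum_const, nsmul_eq_mul]
      _ ≤ Q * r := mul_le_mul_of_nonneg_right (hQ rfl) hr
      _ = r * Q := mul_comm _ _
  · refine ⟨by positivity, fun μ => ?_⟩
    rw [coeff_sum]
    refine (na_sum_le (hna rfl) s _ r hr fun i hi => (h i hi).2 μ).trans ?_
    calc r = r * 1 := (mul_one r).symm
      _ ≤ r * Q := mul_le_mul_of_nonneg_left hQ1 hr

/-- The system of bounds on a polynomial ring given by an absolute value. -/
def polySys (na : Bool) (v : AbsoluteValue K ℝ) (hna : na = true → IsNonarchimedean v) (D : Set K)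
    (M : ℕ) (Q : ℝ) (hQ1 : 1 ≤ Q) (hQM : na = false → (M : ℝ) ≤ Q) (hQD : ∀ a ∈ D, v a ≤ Q) :
    BSys K (MvPolynomial σ K) D M where
  B := fun P j => Bd na v P (Q ^ j)
  mono := fun a i j hij h => h.mono (pow_le_pow_right₀ hQ1 hij)
  mul := fun a b i j ha hb => (ha.mul hna hb).mono (by
    rw [← pow_add]
    exact pow_le_pow_right₀ hQ1 (by omega))
  sum := fun s f j hs h => by
    rw [pow_succ]
    exact Bd.sum hna s f _ (by positivity) h Q hQ1 fun hf =>
      le_trans (by exact_mod_cast hs) (hQM hf)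
  neg := fun a j h => bd_neg h
  coef := fun a ha => by
    rw [algebraMap_eq, pow_one]
    exact (bd_C na a).mono (hQD a ha)
  one := by
    rw [pow_zero, ← C_1]
    have h := bd_C (v := v) (σ := σ) na (1 : K)
    rwa [v.map_one] at h

/-- The root bound for binary forms. -/
lemma root_bound (na : Bool) (hna : na = true → IsNonarchimedean v) (P : MvPolynomial (Fin 2) K)
    (m : ℕ) (hP : P.IsHomogeneous m) (h0 : P ≠ 0) (x y : K) (hx : x ≠ 0)
    (hroot : eval ![x, y] P = 0) (r : ℝ) (hr : Bd na v P r) (κ₀ : Fin 2 →₀ ℕ)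
    (hκ₀ : κ₀ ∈ P.support) (hmax : ∀ κ ∈ P.support, κ 1 ≤ κ₀ 1) :
    max (v (y / x)) 1 ≤ r / v (P.coeff κ₀) := by
  classical
  have hc : 0 < v (P.coeff κ₀) := v.pos (mem_support_iff.1 hκ₀)
  rw [le_div_iff₀ hc]
  -- a monomial is determined by its second exponent
  have hdeg : ∀ κ ∈ P.support, κ 0 + κ 1 = m := by
    intro κ hκ
    have h1 : κ.degree = m := by
      have := hP (mem_support_iff.1 hκ)
      rw [Finsupp.degree_eq_weight_one]; exact this
    rw [Finsupp.degree_eq_sum, Fin.sum_univ_two] at h1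
    exact h1
  have hinj : ∀ κ ∈ P.support, κ ≠ κ₀ → κ 1 < κ₀ 1 := by
    intro κ hκ hne
    rcases lt_or_eq_of_le (hmax κ hκ) with h1 | h1
    · exact h1
    · exfalso
      apply hne
      ext i
      fin_cases i
      · have := hdeg κ hκ
        have := hdeg κ₀ hκ₀
        simp only [Fin.zero_eta, Fin.isValue]
        omega
      · exact h1
  set t := y / x with ht
  have hev : ∑ κ ∈ P.support, P.coeff κ * t ^ κ 1 = 0 := by
    have h1 : eval ![x, y] P = x ^ m * ∑ κ ∈ P.support, P.coeff κ * t ^ κ 1 := by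
      rw [eval_eq', Finset.mul_sum]
      apply Finset.sum_congr rfl
      intro κ hκ
      rw [Fin.prod_univ_two]
      simp only [Matrix.cons_val_zero, Matrix.cons_val_one]
      have h2 : y = t * x := by rw [ht]; field_simp
      rw [h2, mul_pow, ← hdeg κ hκ, pow_add]
      ring
    rw [h1] at hroot
    exact (mul_eq_zero.1 hroot).resolve_left (pow_ne_zero _ hx)
  rcases le_or_gt (v t) 1 with h1 | h1
  · rw [max_eq_right h1, one_mul]
    exact hr.coeff κ₀
  · rw [max_eq_left h1.le]
    have h2 : P.coeff κ₀ * t ^ κ₀ 1 = -∑ κ ∈ P.support.erase κ₀, P.coeff κ * t ^ κ 1 := by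
      rw [← Finset.add_sum_erase _ _ hκ₀] at hev
      linear_combination hev
    have hpos : 0 < κ₀ 1 := by
      by_contra hcon
      have h3 : P.support.erase κ₀ = ∅ := by
        rw [Finset.eq_empty_iff_forall_notMem]
        intro κ hκ
        have h4 := hinj κ (Finset.mem_of_mem_erase hκ) (Finset.ne_of_mem_erase hκ)
        omega
      rw [h3, Finset.sum_empty, neg_zero] at h2
      have h5 := congrArg v h2
      have h6 : κ₀ 1 = 0 := by omega
      rw [h6, pow_zero, mul_one, v.map_zero] at h5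
      exact hc.ne' h5
    have h3 : v (∑ κ ∈ P.support.erase κ₀, P.coeff κ * t ^ κ 1) ≤ r * v t ^ (κ₀ 1 - 1) := by
      cases na
      · refine (v.sum_le _ _).trans ?_
        calc ∑ κ ∈ P.support.erase κ₀, v (P.coeff κ * t ^ κ 1)
            ≤ ∑ κ ∈ P.support.erase κ₀, v (P.coeff κ) * v t ^ (κ₀ 1 - 1) := by
              apply Finset.sum_le_sum
              intro κ hκ
              rw [v.map_mul, v.map_pow]
              apply mul_le_mul_of_nonneg_left _ (v.nonneg _)
              apply pow_le_pow_right₀ h1.le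
              have := hinj κ (Finset.mem_of_mem_erase hκ) (Finset.ne_of_mem_erase hκ)
              omega
          _ = (∑ κ ∈ P.support.erase κ₀, v (P.coeff κ)) * v t ^ (κ₀ 1 - 1) :=
              (Finset.sum_mul _ _ _).symm
          _ ≤ r * v t ^ (κ₀ 1 - 1) := by
              apply mul_le_mul_of_nonneg_right _ (pow_nonneg (v.nonneg _) _)
              exact (sum_le_of_subset _ _).trans hr
      · apply na_sum_le (hna rfl) _ _ _ (mul_nonneg hr.1 (pow_nonneg (v.nonneg _) _))
        intro κ hκ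
        rw [v.map_mul, v.map_pow]
        apply mul_le_mul (hr.2 κ) _ (pow_nonneg (v.nonneg _) _) hr.1
        apply pow_le_pow_right₀ h1.le
        have := hinj κ (Finset.mem_of_mem_erase hκ) (Finset.ne_of_mem_erase hκ)
        omega
    have h4 := congrArg v h2
    rw [v.map_mul, v.map_pow, v.map_neg] at h4
    rw [← h4] at h3
    have h5 : v t ^ κ₀ 1 = v t * v t ^ (κ₀ 1 - 1) := by
      rw [← pow_succ']
      congr 1
      omega
    rw [h5] at h3
    have h6 : 0 < v t ^ (κ₀ 1 - 1) := pow_pos (by linarith) _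
    have h7 : (v t * v (P.coeff κ₀)) * v t ^ (κ₀ 1 - 1) ≤ r * v t ^ (κ₀ 1 - 1) := by
      calc _ = v (P.coeff κ₀) * (v t * v t ^ (κ₀ 1 - 1)) := by ring
        _ ≤ _ := h3
    exact le_of_mul_le_mul_right h7 h6

end Pool.Agent.R847.HG
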