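import Mathlib

set_option autoImplicit false

/-! Abstract systems of bounds for the elements of a ring, and bounds for the iterates of a
polynomial map. -/

namespace Pool.Agent.R847.HG

open MvPolynomial

/-- A system of bounds on a commutative algebra: `B a j` means that the size of `a` is at most the
`j`-th power of a fixed quantity. Elements of `D` have size at most one such quantity, and sums of at
most `M` terms cost one more factor. -/
structure BSys (K R : Type) [Field K] [CommRing R] [Algebra K R] (D : Set K) (M : ℕ) where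
  /-- the bounds -/
  B : R → ℕ → Prop
  mono : ∀ (a : R) (i j : ℕ), i ≤ j → B a i → B a j
  mul : ∀ (a b : R) (i j : ℕ), B a i → B b j → B (a * b) (i + j + 2)
  sum : ∀ {κ : Type} (s : Finset κ) (f : κ → R) (j : ℕ), s.card ≤ M → (∀ i ∈ s, B (f i) j) →
    B (∑ i ∈ s, f i) (j + 1)
  neg : ∀ (a : R) (j : ℕ), B a j → B (-a) j
  coef : ∀ a ∈ D, B (algebraMap K R a) 1
  one : B 1 0

variable {K R : Type} [Field K] [CommRing R] [Algebra K R] {D : Set K} {M : ℕ}

lemma BSys.prod (S : BSys K R D M) {σ : Type} (y : σ → R) (j : ℕ) (hy : ∀ l, S.B (y l) j) (n : ℕ) :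
    ∀ κ : σ →₀ ℕ, κ.degree = n → S.B (κ.prod fun l e => y l ^ e) (n * (j + 2)) := by
  classical
  induction n with
  | zero =>
    intro κ hκ
    rw [Finsupp.degree_eq_zero_iff] at hκ
    rw [hκ, Finsupp.prod_zero_index, zero_mul]
    exact S.one
  | succ n ih =>
    intro κ hκ
    have hne : κ ≠ 0 := by
      rintro rfl
      simp at hκ
    obtain ⟨l, hl⟩ := Finsupp.ne_iff.1 hne
    rw [Finsupp.zero_apply] at hl
    set κ' := κ - Finsupp.single l 1 with hκ'
    have h1 : κ = κ' + Finsupp.single l 1 := by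
      rw [hκ', tsub_add_cancel_of_le]
      rw [Finsupp.single_le_iff]
      omega
    have h2 : κ'.degree = n := by
      have h3 := congrArg Finsupp.degree h1
      rw [map_add, Finsupp.degree_single, hκ] at h3
      omega
    have hprod : (κ' + Finsupp.single l 1).prod (fun l e => y l ^ e) =
        (κ'.prod fun l e => y l ^ e) * y l := by
      rw [Finsupp.prod_add_index' (fun _ => pow_zero _) (fun _ _ _ => pow_add _ _ _)]
      congr 1
      rw [Finsupp.prod_single_index (h := fun l e => y l ^ e) (pow_zero _), pow_one]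
    rw [h1, hprod]
    have h4 := S.mul _ _ _ _ (ih κ' h2) (hy l)
    refine S.mono _ _ _ ?_ h4
    rw [Nat.add_mul]
    omega

lemma BSys.eval (S : BSys K R D M) {σ : Type} [Finite σ] (G : MvPolynomial σ K) (d : ℕ)
    (hG : G.IsHomogeneous d) (hD : ∀ κ ∈ G.support, G.coeff κ ∈ D) (hM : G.support.card ≤ M)
    (y : σ → R) (j : ℕ) (hy : ∀ l, S.B (y l) j) : S.B (aeval y G) (d * (j + 2) + 4) := by
  classical
  rw [MvPolynomial.aeval_def, MvPolynomial.eval₂_eq]
  apply S.sum _ _ (d * (j + 2) + 3) hM
  intro κ hκ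
  have hdeg : κ.degree = d := by
    have := hG (mem_support_iff.1 hκ)
    rw [Finsupp.degree_eq_weight_one]; exact this
  have h1 := S.prod y j hy d κ hdeg
  have h2 := S.mul _ _ _ _ (S.coef _ (hD κ hκ)) h1
  refine S.mono _ _ _ ?_ h2
  omega

/-- The action of a tuple of polynomials on the tuples of elements of an algebra. -/
noncomputable def stepR {σ : Type} (F : σ → MvPolynomial σ K) (y : σ → R) : σ → R :=
  fun l => aeval y (F l)

lemma BSys.iterate (S : BSys K R D M) {σ : Type} [Finite σ] (F : σ → MvPolynomial σ K) (d : ℕ)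
    (hd : 2 ≤ d) (hF : ∀ l, (F l).IsHomogeneous d) (hD : ∀ l, ∀ κ ∈ (F l).support, (F l).coeff κ ∈ D)
    (hM : ∀ l, (F l).support.card ≤ M) (y : σ → R) (j : ℕ) (hy : ∀ l, S.B (y l) j) (k : ℕ) :
    ∀ l, S.B ((stepR F)^[k] y l) ((j + 8) * d ^ k - 8) := by
  induction k with
  | zero =>
    intro l
    simpa using hy l
  | succ k ih =>
    intro l
    rw [Function.iterate_succ_apply']
    have h1 := S.eval (F l) d (hF l) (hD l) (hM l) ((stepR F)^[k] y) _ ih
    refine S.mono _ _ _ ?_ h1
    have h2 : 8 ≤ (j + 8) * d ^ k := by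
      calc 8 ≤ (j + 8) * 1 := by omega
        _ ≤ (j + 8) * d ^ k := Nat.mul_le_mul_left _ (Nat.one_le_pow _ _ (by omega))
    obtain ⟨t, ht⟩ : ∃ t, (j + 8) * d ^ k = t + 8 := ⟨(j + 8) * d ^ k - 8, by omega⟩
    rw [pow_succ, ← mul_assoc, ht, Nat.add_sub_cancel]
    have h3 : (t + 8) * d = d * (t + 2) + 6 * d := by ring
    rw [h3]
    omega

lemma BSys.prod_finset (S : BSys K R D M) {κ : Type} (s : Finset κ) (f : κ → R) (j : ℕ)
    (hf : ∀ i ∈ s, S.B (f i) j) : S.B (∏ i ∈ s, f i) (s.card * (j + 2)) := by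
  classical
  induction s using Finset.induction_on with
  | empty => simpa using S.one
  | insert a s ha ih =>
    rw [Finset.prod_insert ha, Finset.card_insert_of_notMem ha]
    have h1 := S.mul _ _ _ _ (hf a (Finset.mem_insert_self _ _))
      (ih fun i hi => hf i (Finset.mem_insert_of_mem hi))
    refine S.mono _ _ _ ?_ h1
    rw [Nat.add_mul]
    omega

lemma BSys.det (S : BSys K R D M) {e : ℕ} (A : Matrix (Fin e) (Fin e) R) (j : ℕ)
    (hA : ∀ a b, S.B (A a b) j) (hM : e.factorial ≤ M) : S.B A.det (e * (j + 2) + 1) := by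
  classical
  rw [Matrix.det_apply]
  apply S.sum
  · rw [Finset.card_univ, Fintype.card_perm, Fintype.card_fin]
    exact hM
  · intro σ _
    have h1 := S.prod_finset Finset.univ (fun i => A (σ i) i) j fun i _ => hA _ _
    rw [Finset.card_univ, Fintype.card_fin] at h1
    rcases Int.units_eq_one_or (Equiv.Perm.sign σ) with h2 | h2
    · rw [h2, one_smul]; exact h1
    · rw [h2, Units.neg_smul, one_smul]
      exact S.neg _ _ h1

end Pool.Agent.R847.HG
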